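import Pool.Agent.ConnDens.Pointwise

/-!
# The average size of a connected set is at most `5n/6`
-/

set_option autoImplicit false
set_option linter.unusedSectionVars false

namespace Pool.Agent.ConnDens

open Finset

open scoped Classical

variable {V : Type} [Fintype V] {G : SimpleGraph V}

/-- all connected sets -/
noncomputable def CS (G : SimpleGraph V) : Finset (Finset V) := univ.filter (fun S => Conn G S)

theorem mem_CS {S : Finset V} : S ∈ CS G ↔ Conn G S := by
  unfold CS; rw [mem_filter]; exact ⟨fun h => h.2, fun h => ⟨mem_univ _, h⟩⟩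

/-- vertices which can be added -/
noncomputable def Ad (G : SimpleGraph V) (S : Finset V) : Finset V :=
  univ.filter (fun w => w ∉ S ∧ Conn G (insert w S))

theorem mem_Ad {S : Finset V} {w : V} : w ∈ Ad G S ↔ w ∉ S ∧ Conn G (insert w S) := by
  unfold Ad; rw [mem_filter]; exact ⟨fun h => h.2, fun h => ⟨mem_univ _, h⟩⟩

theorem mem_Rem {S : Finset V} {w : V} : w ∈ Rem G S ↔ w ∈ S ∧ Conn G (S.erase w) := by
  unfold Rem; rw [mem_filter]

theorem conn_insert {S : Finset V} (hS : Conn G S) {u w : V} (hu : u ∈ S) (huw : G.Adj u w) :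
    Conn G (insert w S) := by
  by_cases hw : w ∈ S
  · rw [insert_eq_of_mem hw]; exact hS
  refine conn_of_base (x := w) (mem_insert_self w S) ?_
  intro T hT hTne hwT hcl
  have hTS : T ⊆ S := by
    intro a ha
    rcases mem_insert.1 (hT ha) with h | h
    · subst h; exact absurd ha hwT
    · exact h
  have := hS.eq_of_closed hTS hTne (fun a ha b hb hbT => hcl a ha b (mem_insert_of_mem hb) hbT)
  subst this
  exact hcl u hu w (mem_insert_self _ _) hwT huw

/-- exchange -/
theorem exchange (g : Finset V → V → ℤ) :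
    ∑ T ∈ CS G, ∑ w ∈ Rem G T, g T w = ∑ S ∈ CS G, ∑ w ∈ Ad G S, g (insert w S) w := by
  rw [sum_sigma', sum_sigma']
  refine sum_bij' (fun p _ => ⟨p.1.erase p.2, p.2⟩) (fun p _ => ⟨insert p.2 p.1, p.2⟩)
    ?_ ?_ ?_ ?_ ?_
  · rintro ⟨T, w⟩ h
    rw [mem_sigma] at h ⊢
    obtain ⟨h1, h2⟩ := h
    rw [mem_CS] at h1 ⊢
    rw [mem_Rem] at h2
    rw [mem_Ad]
    refine ⟨h2.2, notMem_erase _ _, ?_⟩
    rw [insert_erase h2.1]
    exact h1
  · rintro ⟨S, w⟩ h
    rw [mem_sigma] at h ⊢
    obtain ⟨h1, h2⟩ := h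
    rw [mem_CS] at h1 ⊢
    rw [mem_Ad] at h2
    rw [mem_Rem]
    refine ⟨h2.2, mem_insert_self _ _, ?_⟩
    rw [erase_insert h2.1]
    exact h1
  · rintro ⟨T, w⟩ h
    rw [mem_sigma, mem_Rem] at h
    simp only [insert_erase h.2.1]
  · rintro ⟨S, w⟩ h
    rw [mem_sigma, mem_Ad] at h
    simp only [erase_insert h.2.1]
  · rintro ⟨T, w⟩ h
    rw [mem_sigma, mem_Rem] at h
    simp only [insert_erase h.2.1]

/-- the deficit is covered by the vertices which can be added -/
theorem deficit (hdeg : ∀ v : V, 3 ≤ (univ.filter (fun w => G.Adj v w)).card) {S : Finset V}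
    (hS : Conn G S) :
    ∑ u ∈ S, ((3 - dg G S u : ℕ) : ℤ) ≤ ∑ w ∈ Ad G S, (lo G (insert w S) w : ℤ) := by
  have h1 : ∀ w ∈ Ad G S, ∑ u ∈ S, (if G.Adj w u ∧ dg G S u ≤ 2 then (1 : ℤ) else 0) ≤
      (lo G (insert w S) w : ℤ) := by
    intro w hw
    rw [mem_Ad] at hw
    rw [← natCast_card_filter]
    norm_cast
    unfold lo
    apply card_le_card
    intro u hu
    rw [mem_filter] at hu ⊢
    refine ⟨mem_insert_of_mem hu.1, hu.2.1, ?_⟩
    have : dg G (insert w S) u ≤ dg G S u + 1 := by
      unfold dg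
      rw [filter_insert]
      split_ifs
      · exact card_insert_le _ _
      · omega
    omega
  refine le_trans ?_ (sum_le_sum h1)
  rw [sum_comm]
  apply sum_le_sum
  intro u hu
  by_cases hd : dg G S u ≤ 2
  · have h2 : ∑ w ∈ Ad G S, (if G.Adj w u ∧ dg G S u ≤ 2 then (1 : ℤ) else 0) =
        (((Ad G S).filter (fun w => G.Adj u w)).card : ℤ) := by
      rw [natCast_card_filter]
      apply sum_congr rfl
      intro w _
      simp [hd, G.adj_comm]
    rw [h2]
    have h3 : univ.filter (fun w => G.Adj u w) ⊆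
        S.filter (fun w => G.Adj u w) ∪ (Ad G S).filter (fun w => G.Adj u w) := by
      intro w hw
      rw [mem_filter] at hw
      rw [mem_union, mem_filter, mem_filter]
      by_cases hwS : w ∈ S
      · exact Or.inl ⟨hwS, hw.2⟩
      · exact Or.inr ⟨mem_Ad.2 ⟨hwS, conn_insert hS hu hw.2⟩, hw.2⟩
    have h4 := (card_le_card h3).trans (card_union_le _ _)
    have h5 := hdeg u
    unfold dg at hd ⊢
    omega
  · have : (3 - dg G S u : ℕ) = 0 := by omega
    rw [this]
    apply sum_nonneg
    intro w _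
    split_ifs <;> norm_num

/-- the inequality for singletons is strict -/
theorem singleton_strict (hdeg : ∀ v : V, 3 ≤ (univ.filter (fun w => G.Adj v w)).card) (v : V)
    (hv : Conn G {v}) :
    ((({v} : Finset V).card : ℕ) : ℤ) < ∑ w ∈ Ad G {v}, (lo G (insert w {v}) w : ℤ) +
      ∑ w ∈ Rem G {v}, (5 - (lo G {v} w : ℤ)) := by
  have h1 := deficit hdeg hv
  have h2 : dg G {v} v = 0 := by
    unfold dg
    rw [card_eq_zero, filter_eq_empty_iff]
    intro w hw
    rw [mem_singleton] at hw
    subst hw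
    exact G.loopless.irrefl _
  have h3 : Rem G {v} = ∅ := by
    rw [eq_empty_iff_forall_notMem]
    intro w hw
    rw [mem_Rem, mem_singleton] at hw
    obtain ⟨rfl, hw⟩ := hw
    have := hw.1
    simp at this
  rw [sum_singleton, h2] at h1
  rw [h3, sum_empty, card_singleton]
  push_cast at h1 ⊢
  linarith

/-- Main inequality: the average size of a connected set is less than `5n/6`. -/
theorem average [Nonempty V] (hdeg : ∀ v : V, 3 ≤ (univ.filter (fun w => G.Adj v w)).card) :
    6 * ∑ S ∈ CS G, (S.card : ℤ) < 5 * (Fintype.card V : ℤ) * (CS G).card := by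
  have h1 : ∑ S ∈ CS G, (S.card : ℤ) < ∑ S ∈ CS G,
      (∑ w ∈ Ad G S, (lo G (insert w S) w : ℤ) + ∑ w ∈ Rem G S, (5 - (lo G S w : ℤ))) := by
    apply sum_lt_sum
    · intro S hS
      rw [mem_CS] at hS
      have a := pointwise hS
      have b := deficit hdeg hS
      linarith
    · obtain ⟨v⟩ := (inferInstance : Nonempty V)
      have hv : Conn G {v} := by
        refine ⟨singleton_nonempty v, ?_⟩
        intro T hT hne hT'
        exfalso
        rcases subset_singleton_iff.1 hT with h | h
        · rw [h] at hne; exact not_nonempty_empty hne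
        · exact hT' h
      exact ⟨{v}, mem_CS.2 hv, singleton_strict hdeg v hv⟩
  rw [sum_add_distrib, exchange (fun T w => 5 - (lo G T w : ℤ)), ← sum_add_distrib] at h1
  have h2 : ∀ S ∈ CS G, ∑ w ∈ Ad G S, (lo G (insert w S) w : ℤ) +
      ∑ w ∈ Ad G S, (5 - (lo G (insert w S) w : ℤ)) ≤ 5 * ((Fintype.card V : ℤ) - S.card) := by
    intro S _
    rw [← sum_add_distrib]
    have : ∀ w ∈ Ad G S, (lo G (insert w S) w : ℤ) + (5 - (lo G (insert w S) w : ℤ)) = 5 := by
      intro w _; ring
    rw [sum_congr rfl this, sum_const, nsmul_eq_mul]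
    have h3 : (Ad G S).card + S.card ≤ Fintype.card V := by
      rw [← card_union_of_disjoint]
      · exact card_le_univ _
      · rw [disjoint_left]
        intro w hw
        exact (mem_Ad.1 hw).1
    have : ((Ad G S).card : ℤ) + S.card ≤ Fintype.card V := by exact_mod_cast h3
    linarith
  have h4 := h1.trans_le (sum_le_sum h2)
  rw [← mul_sum, sum_sub_distrib, sum_const, nsmul_eq_mul] at h4
  linarith

end Pool.Agent.ConnDens
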