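import Pool.Agent.ConnDens.Necklace

/-!
# Connected sets of a chain of diamonds
-/

set_option autoImplicit false
set_option linter.unusedSectionVars false

namespace Pool.Agent.ConnDens

open Finset

open scoped Classical

variable {k : ℕ}

theorem mem_CSN {S : Finset (NV k)} : S ∈ CS (NG k) ↔ Conn (NG k) S := by
  rw [mem_CS]
  have : (fun a b : NV k => Classical.propDecidable (a = b)) =
      (instDecidableEqSum : DecidableEq (NV k)) := Subsingleton.elim _ _
  rw [this]

/-- the bead `p` is traversed by `S` -/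
def thr (S : Finset (NV k)) (p : Fin k) : Prop :=
  dm p 0 ∈ S ∧ dm p 3 ∈ S ∧ (dm p 1 ∈ S ∨ dm p 2 ∈ S)

/-- `T` is closed in `S` -/
def Closed (S T : Finset (NV k)) : Prop :=
  ∀ u ∈ T, ∀ w ∈ S, w ∉ T → ¬ (NG k).Adj u w

theorem Closed.step {S T : Finset (NV k)} (h : Closed S T) {u w : NV k} (hu : u ∈ T) (hw : w ∈ S)
    (huw : (NG k).Adj u w) : w ∈ T := by
  by_contra hcon
  exact h u hu w hw hcon huw

theorem dd_of {p : Fin k} {i j : Fin 4} (h : diaAdj i j = true) :
    (NG k).Adj (dm p i) (dm p j) := adj_dd.2 (Or.inl ⟨rfl, h⟩)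

/-- inside a traversed bead everything is linked -/
theorem link {S T : Finset (NV k)} (_hT : T ⊆ S) (h : Closed S T) {p : Fin k} (hp : thr S p)
    {i j : Fin 4} (hi : dm p i ∈ T) (hj : dm p j ∈ S) : dm p j ∈ T := by
  obtain ⟨h0, h3, h12⟩ := hp
  have key : dm p 0 ∈ T := by
    fin_cases i
    · exact hi
    · exact h.step hi h0 (dd_of (by decide))
    · exact h.step hi h0 (dd_of (by decide))
    · rcases h12 with h1 | h2
      · exact h.step (h.step hi h1 (dd_of (by decide))) h0 (dd_of (by decide))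
      · exact h.step (h.step hi h2 (dd_of (by decide))) h0 (dd_of (by decide))
  fin_cases j
  · exact key
  · exact h.step key hj (dd_of (by decide))
  · exact h.step key hj (dd_of (by decide))
  · rcases h12 with h1 | h2
    · exact h.step (h.step key h1 (dd_of (by decide))) hj (dd_of (by decide))
    · exact h.step (h.step key h2 (dd_of (by decide))) hj (dd_of (by decide))

theorem chain_iff {S T : Finset (NV k)} (hT : T ⊆ S) (h : Closed S T) (hS : ∀ p, thr S p) :
    ∀ (n : ℕ) (hn : n < k), dm ⟨n, hn⟩ 0 ∈ T ↔ dm ⟨0, by omega⟩ 0 ∈ T := by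
  intro n
  induction n with
  | zero => intro hn; exact Iff.rfl
  | succ n ih =>
    intro hn
    rw [← ih (by omega)]
    have hadj : (NG k).Adj (dm ⟨n, by omega⟩ 3) (dm ⟨n + 1, hn⟩ 0) :=
      adj_dd.2 (Or.inr (Or.inl ⟨rfl, rfl, rfl⟩))
    constructor
    · intro h1
      have h2 := h.step h1 (hS ⟨n, by omega⟩).2.1 hadj.symm
      exact link hT h (hS _) h2 (hS _).1
    · intro h1
      have h2 := link hT h (hS _) h1 (hS _).2.1
      exact h.step h2 (hS ⟨n + 1, hn⟩).1 hadj

theorem chain_all {S T : Finset (NV k)} (hT : T ⊆ S) (h : Closed S T) (hS : ∀ p, thr S p)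
    {p : Fin k} {i : Fin 4} (hi : dm p i ∈ T) {q : Fin k} {j : Fin 4} (hj : dm q j ∈ S) :
    dm q j ∈ T := by
  have h1 := link hT h (hS p) hi (hS p).1
  have h2 := (chain_iff hT h hS p.val p.isLt).1 h1
  have h3 := (chain_iff hT h hS q.val q.isLt).2 h2
  exact link hT h (hS q) h3 hj

/-- the three ways to traverse a bead -/
def pat : Fin 3 → Finset (Fin 4)
  | 0 => {0, 1, 3}
  | 1 => {0, 2, 3}
  | 2 => {0, 1, 2, 3}

/-- the set with prescribed patterns -/
noncomputable def fullSet (f : Fin k → Fin 3) : Finset (NV k) :=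
  univ.filter (fun v => ∃ p i, v = dm p i ∧ i ∈ pat (f p))

theorem mem_fullSet {f : Fin k → Fin 3} {p : Fin k} {i : Fin 4} :
    dm p i ∈ fullSet f ↔ i ∈ pat (f p) := by
  unfold fullSet
  rw [mem_filter]
  constructor
  · rintro ⟨_, q, j, h, hj⟩
    have h' := Sum.inr.inj h
    have h1 := (Prod.mk.inj h').1
    have h2 := (Prod.mk.inj h').2
    subst h1; subst h2
    exact hj
  · intro h
    exact ⟨mem_univ _, p, i, rfl, h⟩

theorem pat_prop : ∀ c : Fin 3, 0 ∈ pat c ∧ 3 ∈ pat c ∧ (1 ∈ pat c ∨ 2 ∈ pat c) := by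
  decide +kernel

theorem pat_inj : ∀ c c' : Fin 3, pat c = pat c' → c = c' := by decide +kernel

theorem thr_fullSet (f : Fin k → Fin 3) (p : Fin k) : thr (fullSet f) p := by
  unfold thr
  rw [mem_fullSet, mem_fullSet, mem_fullSet, mem_fullSet]
  exact pat_prop _

theorem conn_fullSet (hk : 1 ≤ k) (f : Fin k → Fin 3) : Conn (NG k) (fullSet f) := by
  refine conn_of_closed ⟨dm ⟨0, hk⟩ 0, (thr_fullSet f _).1⟩ ?_
  rintro T hT ⟨v, hv⟩ hcl
  apply Subset.antisymm hT
  intro w hw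
  have hv' := hT hv
  unfold fullSet at hv' hw
  rw [mem_filter] at hv' hw
  obtain ⟨_, p, i, rfl, hi⟩ := hv'
  obtain ⟨_, q, j, rfl, hj⟩ := hw
  exact chain_all hT hcl (thr_fullSet f) hv (mem_fullSet.2 hj)

theorem card_CS_ge (hk : 1 ≤ k) : 3 ^ k ≤ (CS (NG k)).card := by
  have h1 : (univ : Finset (Fin k → Fin 3)).card = 3 ^ k := by
    rw [card_univ, Fintype.card_fun, Fintype.card_fin, Fintype.card_fin]
  rw [← h1]
  refine card_le_card_of_injOn fullSet ?_ ?_
  · intro f _
    exact mem_coe.2 (mem_CSN.2 (conn_fullSet hk f))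
  · intro f _ g _ hfg
    funext p
    apply pat_inj
    ext i
    rw [← mem_fullSet, ← mem_fullSet, hfg]

theorem cap_link : ∀ T : Finset (Fin 5), T.Nonempty →
    (∀ i ∈ T, ∀ j, capAdj i j = true → j ∈ T) → T = univ := by decide +kernel

/-- the chain is connected -/
theorem NG_conn (hk : 1 ≤ k) : Conn (NG k) univ := by
  refine conn_of_closed ⟨dm ⟨0, hk⟩ 0, mem_univ _⟩ ?_
  rintro T hT ⟨v, hv⟩ hcl'
  have hcl : Closed univ T := hcl'
  have hS : ∀ p : Fin k, thr (univ : Finset (NV k)) p := fun p =>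
    ⟨mem_univ _, mem_univ _, Or.inl (mem_univ _)⟩
  -- left cap
  have hL : ∀ i j : Fin 5, cl k i ∈ T → cl k j ∈ T := by
    intro i j hi
    have := cap_link (univ.filter (fun i => cl k i ∈ T)) ⟨i, by simpa using hi⟩ (by
      intro a ha b hab
      rw [mem_filter] at ha ⊢
      exact ⟨mem_univ _, hcl.step ha.2 (mem_univ _) (adj_ll.2 hab)⟩)
    have hj : j ∈ univ.filter (fun i => cl k i ∈ T) := by rw [this]; exact mem_univ _
    exact (mem_filter.1 hj).2
  have hR : ∀ i j : Fin 5, cr k i ∈ T → cr k j ∈ T := by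
    intro i j hi
    have := cap_link (univ.filter (fun i => cr k i ∈ T)) ⟨i, by simpa using hi⟩ (by
      intro a ha b hab
      rw [mem_filter] at ha ⊢
      exact ⟨mem_univ _, hcl.step ha.2 (mem_univ _) (adj_rr.2 hab)⟩)
    have hj : j ∈ univ.filter (fun i => cr k i ∈ T) := by rw [this]; exact mem_univ _
    exact (mem_filter.1 hj).2
  have hLD : (NG k).Adj (cl k 0) (dm ⟨0, hk⟩ 0) := adj_ld.2 ⟨rfl, rfl, rfl⟩
  have hRD : (NG k).Adj (cr k 0) (dm ⟨k - 1, by omega⟩ 3) := by
    refine adj_rd.2 ⟨rfl, ?_, rfl⟩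
    simp; omega
  have h0 : ∃ p i, dm p i ∈ T := by
    rcases v with (i | i) | ⟨p, i⟩
    · exact ⟨_, _, hcl.step (hL i 0 hv) (mem_univ _) hLD⟩
    · exact ⟨_, _, hcl.step (hR i 0 hv) (mem_univ _) hRD⟩
    · exact ⟨p, i, hv⟩
  obtain ⟨p, i, hpi⟩ := h0
  have hD : ∀ q j, dm q j ∈ T := fun q j => chain_all hT hcl hS hpi (mem_univ _)
  apply Subset.antisymm hT
  intro w _
  rcases w with (j | j) | ⟨q, j⟩
  · exact hL 0 j (hcl.step (hD _ _) (mem_univ _) hLD.symm)
  · exact hR 0 j (hcl.step (hD _ _) (mem_univ _) hRD.symm)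
  · exact hD q j

end Pool.Agent.ConnDens
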