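import Pool.Agent.ConnDens.Chain

/-!
# Counting the connected sets of a chain of diamonds
-/

set_option autoImplicit false
set_option linter.unusedSectionVars false

namespace Pool.Agent.ConnDens

open Finset

open scoped Classical

variable {k : ℕ}

/-- position along the chain -/
def pos : NV k → ℕ
  | Sum.inl (Sum.inl _) => 0
  | Sum.inl (Sum.inr _) => k + 1
  | Sum.inr (p, _) => p.val + 1

@[simp] theorem pos_cl (i : Fin 5) : pos (cl k i) = 0 := rfl
@[simp] theorem pos_cr (i : Fin 5) : pos (cr k i) = k + 1 := rfl
@[simp] theorem pos_dm (p : Fin k) (i : Fin 4) : pos (dm p i) = p.val + 1 := rfl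

theorem dia_no03 : ¬ diaAdj 0 3 = true := by decide

theorem pos_le (v : NV k) : pos v ≤ k + 1 := by
  rcases v with (i | i) | ⟨p, i⟩
  · exact Nat.zero_le _
  · exact le_refl _
  · have := p.isLt
    change p.val + 1 ≤ k + 1
    omega

/-- a bead which is not traversed separates -/
theorem one_side {S : Finset (NV k)} (hS : Conn (NG k) S) {p : Fin k} (hp : ¬ thr S p) :
    (∀ v ∈ S, pos v ≤ p.val + 1) ∨ (∀ v ∈ S, p.val + 1 ≤ pos v) := by
  by_cases h3 : dm p 3 ∈ S
  · -- then `s_p` is missing or both inner vertices are missing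
    set T : Finset (NV k) := S.filter (fun v => pos v ≤ p.val ∨ v = dm p 0) with hT
    have hcl : ∀ u ∈ T, ∀ w ∈ S, w ∉ T → ¬ (NG k).Adj u w := by
      intro u hu w hw hwT hadj
      rw [hT, mem_filter] at hu hwT
      have hw1 : ¬ (pos w ≤ p.val ∨ w = dm p 0) := fun h => hwT ⟨hw, h⟩
      push Not at hw1
      obtain ⟨huS, hu⟩ := hu
      have hp' := p.isLt
      unfold thr at hp
      rcases hu with hu | rfl
      · rcases u with (i | i) | ⟨q, i⟩
        · rcases w with (j | j) | ⟨r, j⟩
          · exact absurd (Nat.zero_le _) (not_le.2 hw1.1)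
          · exact hadj
          · obtain ⟨h1, h2, h8⟩ := adj_ld.1 hadj
            have h4 : p.val < r.val + 1 := hw1.1
            have : r = p := Fin.ext (by omega)
            subst this; subst h8
            exact hw1.2 rfl
        · have : k + 1 ≤ p.val := hu
          omega
        · have hq : q.val + 1 ≤ p.val := hu
          rcases w with (j | j) | ⟨r, j⟩
          · exact absurd (Nat.zero_le _) (not_le.2 hw1.1)
          · obtain ⟨h1, h2, h3⟩ := adj_dr.1 hadj
            omega
          · have h4 : p.val < r.val + 1 := hw1.1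
            rcases adj_dd.1 hadj with ⟨rfl, h5⟩ | ⟨h5, h6, h7⟩ | ⟨h5, h6, h7⟩
            · omega
            · have : r = p := Fin.ext (by omega)
              subst this; subst h7
              exact hw1.2 rfl
            · omega
      · rcases w with (j | j) | ⟨r, j⟩
        · exact absurd (Nat.zero_le _) (not_le.2 hw1.1)
        · obtain ⟨h1, h2, h3⟩ := adj_dr.1 hadj
          exact absurd h3 (by decide)
        · have h4 : p.val < r.val + 1 := hw1.1
          rcases adj_dd.1 hadj with ⟨rfl, h5⟩ | ⟨h5, h6, h7⟩ | ⟨h5, h6, h7⟩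
          · rw [dia_nb0] at h5
            apply hp
            refine ⟨huS, h3, ?_⟩
            rcases h5 with rfl | rfl
            · exact Or.inl hw
            · exact Or.inr hw
          · exact absurd h6 (by decide)
          · omega
    by_cases hTne : T.Nonempty
    · left
      have := hS.eq_of_closed (filter_subset _ _) hTne hcl
      intro v hv
      rw [← this, mem_filter] at hv
      rcases hv.2 with h | rfl
      · omega
      · exact le_refl _
    · right
      intro v hv
      by_contra hcon
      apply hTne
      exact ⟨v, mem_filter.2 ⟨hv, Or.inl (by omega)⟩⟩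
  · set T : Finset (NV k) := S.filter (fun v => pos v ≤ p.val + 1) with hT
    have hcl : ∀ u ∈ T, ∀ w ∈ S, w ∉ T → ¬ (NG k).Adj u w := by
      intro u hu w hw hwT hadj
      rw [hT, mem_filter] at hu hwT
      have hw1 : ¬ (pos w ≤ p.val + 1) := fun h => hwT ⟨hw, h⟩
      push Not at hw1
      obtain ⟨huS, hu⟩ := hu
      have hp' := p.isLt
      rcases u with (i | i) | ⟨q, i⟩
      · rcases w with (j | j) | ⟨r, j⟩
        · exact absurd (Nat.zero_le _) (not_le.2 hw1)
        · exact hadj
        · obtain ⟨h1, h2, h3⟩ := adj_ld.1 hadj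
          have h4 : p.val + 1 < r.val + 1 := hw1
          omega
      · have : k + 1 ≤ p.val + 1 := hu
        omega
      · have hq : q.val + 1 ≤ p.val + 1 := hu
        rcases w with (j | j) | ⟨r, j⟩
        · exact absurd (Nat.zero_le _) (not_le.2 hw1)
        · obtain ⟨h1, h2, h4⟩ := adj_dr.1 hadj
          have : q = p := Fin.ext (by omega)
          subst this; subst h4
          exact h3 huS
        · have h4 : p.val + 1 < r.val + 1 := hw1
          rcases adj_dd.1 hadj with ⟨rfl, h5⟩ | ⟨h5, h6, h7⟩ | ⟨h5, h6, h7⟩
          · omega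
          · have : q = p := Fin.ext (by omega)
            subst this; subst h6
            exact h3 huS
          · omega
    by_cases hTne : T.Nonempty
    · left
      have := hS.eq_of_closed (filter_subset _ _) hTne hcl
      intro v hv
      rw [← this, mem_filter] at hv
      exact hv.2
    · right
      intro v hv
      by_contra hcon
      apply hTne
      exact ⟨v, mem_filter.2 ⟨hv, by omega⟩⟩

/-- sets living on the positions `i, …, l` and traversing the beads strictly between -/
noncomputable def Fam (k i l : ℕ) : Finset (Finset (NV k)) :=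
  univ.filter (fun S => (∀ v ∈ S, i ≤ pos v ∧ pos v ≤ l) ∧
    ∀ p : Fin k, i < p.val + 1 → p.val + 1 < l → thr S p)

theorem mem_Fam_of_conn {S : Finset (NV k)} (hS : Conn (NG k) S) :
    ∃ i l, i ≤ l ∧ l ≤ k + 1 ∧ S ∈ Fam k i l := by
  obtain ⟨u, hu, hmin⟩ := exists_min_image S pos hS.1
  obtain ⟨v, hv, hmax⟩ := exists_max_image S pos hS.1
  refine ⟨pos u, pos v, hmin v hv, pos_le v, ?_⟩
  unfold Fam
  rw [mem_filter]
  refine ⟨mem_univ _, fun w hw => ⟨hmin w hw, hmax w hw⟩, ?_⟩
  intro p h1 h2
  by_contra hcon
  rcases one_side hS hcon with h | h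
  · have := h v hv; omega
  · have := h u hu; omega

/-- vertices at a given position -/
noncomputable def At (k i : ℕ) : Finset (NV k) := univ.filter (fun v => pos v = i)

/-- index inside the block -/
def idx : NV k → Fin 5
  | Sum.inl (Sum.inl i) => i
  | Sum.inl (Sum.inr i) => i
  | Sum.inr (_, i) => i.castSucc

theorem card_At_le (i : ℕ) : (At k i).card ≤ 5 := by
  have h5 : (univ : Finset (Fin 5)).card = 5 := by simp
  rw [← h5]
  refine card_le_card_of_injOn idx (fun _ _ => mem_coe.2 (mem_univ _)) ?_
  intro u hu v hv huv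
  unfold At at hu hv
  rw [mem_coe, mem_filter] at hu hv
  have hpos : pos u = pos v := hu.2.trans hv.2.symm
  rcases u with (a | a) | ⟨p, a⟩
  · rcases v with (b | b) | ⟨q, b⟩
    · have : a = b := huv
      rw [this]
    · have : 0 = k + 1 := hpos
      omega
    · have : 0 = q.val + 1 := hpos
      omega
  · rcases v with (b | b) | ⟨q, b⟩
    · have : k + 1 = 0 := hpos
      omega
    · have : a = b := huv
      rw [this]
    · have : k + 1 = q.val + 1 := hpos
      have := q.isLt
      omega
  · rcases v with (b | b) | ⟨q, b⟩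
    · have : p.val + 1 = 0 := hpos
      omega
    · have : p.val + 1 = k + 1 := hpos
      have := p.isLt
      omega
    · have h1 : p.val + 1 = q.val + 1 := hpos
      have h2 : p = q := Fin.ext (by omega)
      have h3 : a.castSucc = b.castSucc := huv
      rw [h2, Fin.castSucc_injective _ h3]

/-- the three patterns -/
def TH : Finset (Finset (Fin 4)) := {{0, 1, 3}, {0, 2, 3}, {0, 1, 2, 3}}

theorem card_TH : TH.card = 3 := by decide +kernel

theorem mem_TH : ∀ P : Finset (Fin 4), 0 ∈ P → 3 ∈ P → (1 ∈ P ∨ 2 ∈ P) → P ∈ TH := by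
  decide +kernel

/-- pattern of `S` at the bead `p` -/
noncomputable def patAt (S : Finset (NV k)) (p : Fin k) : Finset (Fin 4) :=
  univ.filter (fun i => dm p i ∈ S)

theorem mem_patAt {S : Finset (NV k)} {p : Fin k} {i : Fin 4} : i ∈ patAt S p ↔ dm p i ∈ S := by
  unfold patAt; rw [mem_filter]; exact ⟨fun h => h.2, fun h => ⟨mem_univ _, h⟩⟩

theorem card_Fam_le {i l : ℕ} (hil : i ≤ l) (hl : l ≤ k + 1) :
    (Fam k i l).card ≤ 1024 * 3 ^ (l - i) := by
  set B : Finset (Fin k → Finset (Fin 4)) := Fintype.piFinset (fun p : Fin k =>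
    if i < p.val + 1 ∧ p.val + 1 < l then TH else {∅}) with hB
  have hBcard : B.card ≤ 3 ^ (l - i) := by
    rw [hB, Fintype.card_piFinset]
    have h1 : ∀ p : Fin k, (if i < p.val + 1 ∧ p.val + 1 < l then TH else {∅}).card =
        if i < p.val + 1 ∧ p.val + 1 < l then 3 else 1 := by
      intro p
      split_ifs
      · exact card_TH
      · simp
    rw [prod_congr rfl (fun p _ => h1 p), prod_ite]
    simp only [prod_const, one_pow, mul_one]
    apply Nat.pow_le_pow_right (by norm_num)
    have h2 : (range (l - i)).card = l - i := card_range _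
    rw [← h2]
    refine card_le_card_of_injOn (fun p : Fin k => p.val - i) ?_ ?_
    · intro p hp
      rw [mem_coe, mem_filter] at hp
      rw [mem_coe, mem_range]
      show p.val - i < l - i
      omega
    · intro p hp q hq hpq
      rw [mem_coe, mem_filter] at hp hq
      have : p.val - i = q.val - i := hpq
      exact Fin.ext (by omega)
  have h32 : ∀ j, (At k j).powerset.card ≤ 32 := by
    intro j
    rw [card_powerset]
    calc 2 ^ (At k j).card ≤ 2 ^ 5 := Nat.pow_le_pow_right (by norm_num) (card_At_le j)
      _ = 32 := by norm_num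
  have hmain : (Fam k i l).card ≤ ((At k i).powerset ×ˢ (At k l).powerset ×ˢ B).card := by
    refine card_le_card_of_injOn (fun S => (S ∩ At k i, S ∩ At k l,
      fun p => if i < p.val + 1 ∧ p.val + 1 < l then patAt S p else ∅)) ?_ ?_
    · intro S hS
      unfold Fam at hS
      rw [mem_coe, mem_filter] at hS
      rw [mem_coe, mem_product, mem_product]
      refine ⟨mem_powerset.2 inter_subset_right, mem_powerset.2 inter_subset_right, ?_⟩
      rw [hB, Fintype.mem_piFinset]
      intro p
      show (if i < p.val + 1 ∧ p.val + 1 < l then patAt S p else ∅) ∈ _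
      split_ifs with h
      · obtain ⟨h0, h3, h12⟩ := hS.2.2 p h.1 h.2
        refine mem_TH _ (mem_patAt.2 h0) (mem_patAt.2 h3) ?_
        rcases h12 with h1 | h2
        · exact Or.inl (mem_patAt.2 h1)
        · exact Or.inr (mem_patAt.2 h2)
      · exact mem_singleton_self _
    · intro S hS S' hS' hEq
      unfold Fam at hS hS'
      rw [mem_coe, mem_filter] at hS hS'
      have e1 : S ∩ At k i = S' ∩ At k i := congrArg Prod.fst hEq
      have e2 : S ∩ At k l = S' ∩ At k l := congrArg (fun x => x.2.1) hEq
      have e3 := congrArg (fun x => x.2.2) hEq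
      have key : ∀ {A A' : Finset (NV k)}, (∀ v ∈ A, i ≤ pos v ∧ pos v ≤ l) →
          A ∩ At k i = A' ∩ At k i → A ∩ At k l = A' ∩ At k l →
          ((fun p : Fin k => if i < p.val + 1 ∧ p.val + 1 < l then patAt A p else ∅) =
            fun p : Fin k => if i < p.val + 1 ∧ p.val + 1 < l then patAt A' p else ∅) →
          A ⊆ A' := by
        intro A A' hA h1 h2 h3 v hv
        obtain ⟨ha, hb⟩ := hA v hv
        by_cases hvi : pos v = i
        · have : v ∈ A ∩ At k i := mem_inter.2 ⟨hv, mem_filter.2 ⟨mem_univ _, hvi⟩⟩
          rw [h1] at this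
          exact (mem_inter.1 this).1
        by_cases hvl : pos v = l
        · have : v ∈ A ∩ At k l := mem_inter.2 ⟨hv, mem_filter.2 ⟨mem_univ _, hvl⟩⟩
          rw [h2] at this
          exact (mem_inter.1 this).1
        rcases v with (a | a) | ⟨p, a⟩
        · have e : pos (cl k a) = 0 := rfl
          change i ≤ 0 at ha
          change ¬ (0 = i) at hvi
          omega
        · change k + 1 ≤ l at hb
          change ¬ (k + 1 = l) at hvl
          omega
        · change i ≤ p.val + 1 at ha
          change p.val + 1 ≤ l at hb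
          change ¬ (p.val + 1 = i) at hvi
          change ¬ (p.val + 1 = l) at hvl
          have h4 := congrFun h3 p
          have h5 : i < p.val + 1 ∧ p.val + 1 < l := by omega
          simp only [h5, and_self, if_true] at h4
          have h6 : a ∈ patAt A p := mem_patAt.2 hv
          rw [h4] at h6
          exact mem_patAt.1 h6
      exact Subset.antisymm (key hS.2.1 e1 e2 e3) (key hS'.2.1 e1.symm e2.symm e3.symm)
  refine hmain.trans ?_
  rw [card_product, card_product]
  calc (At k i).powerset.card * ((At k l).powerset.card * B.card) ≤ 32 * (32 * 3 ^ (l - i)) :=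
        Nat.mul_le_mul (h32 i) (Nat.mul_le_mul (h32 l) hBcard)
    _ = 1024 * 3 ^ (l - i) := by ring

end Pool.Agent.ConnDens
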