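import Pool.Agent.ConnDens.Count

/-!
# The average size of a connected set of a chain of diamonds
-/

set_option autoImplicit false
set_option linter.unusedSectionVars false

namespace Pool.Agent.ConnDens

open Finset

open scoped Classical

variable {k : ℕ}

/-- the beads which are not traversed -/
noncomputable def NT (S : Finset (NV k)) : Finset (Fin k) := univ.filter (fun p => ¬ thr S p)

/-- the traversed beads -/
noncomputable def TR (S : Finset (NV k)) : Finset (Fin k) := univ.filter (fun p => thr S p)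

theorem TR_add_NT (S : Finset (NV k)) : (TR S).card + (NT S).card = k := by
  unfold TR NT
  rw [card_filter_add_card_filter_not, card_univ, Fintype.card_fin]

theorem NT_le {i l : ℕ} (_hil : i ≤ l) (hl : l ≤ k + 1) {S : Finset (NV k)} (hS : S ∈ Fam k i l) :
    (NT S).card ≤ i + (k + 1 - l) := by
  unfold Fam at hS
  rw [mem_filter] at hS
  have h1 : (range i ∪ (range (k + 1 - l)).image (fun x => k - 1 - x)).card ≤ i + (k + 1 - l) := by
    refine (card_union_le _ _).trans ?_
    have := card_image_le (s := range (k + 1 - l)) (f := fun x => k - 1 - x)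
    rw [card_range] at this ⊢
    omega
  refine le_trans ?_ h1
  refine card_le_card_of_injOn (fun p : Fin k => p.val) ?_ (fun p _ q _ h => Fin.ext h)
  intro p hp
  unfold NT at hp
  rw [mem_coe, mem_filter] at hp
  have h2 : ¬ (i < p.val + 1 ∧ p.val + 1 < l) := fun h => hp.2 (hS.2.2 p h.1 h.2)
  rw [mem_coe, mem_union, mem_range, mem_image]
  have := p.isLt
  by_cases h3 : p.val < i
  · exact Or.inl h3
  · right
    refine ⟨k - 1 - p.val, ?_, ?_⟩
    · rw [mem_range]; omega
    · show k - 1 - (k - 1 - p.val) = p.val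
      omega

/-- pairs of positions -/
def prs (m : ℕ) : Finset (ℕ × ℕ) := (range (m + 1) ×ˢ range (m + 1)).filter (fun x => x.1 ≤ x.2)

theorem mem_prs {m : ℕ} {x : ℕ × ℕ} : x ∈ prs m ↔ x.1 ≤ x.2 ∧ x.2 ≤ m := by
  unfold prs
  rw [mem_filter, mem_product, mem_range, mem_range]
  omega

theorem term_bound {m i l : ℕ} (hil : i ≤ l) (hl : l ≤ m) :
    ((i + (m - l) : ℕ) : ℝ) * 3 ^ (l - i) ≤ 3 ^ m * ((2 / 3) ^ i * (2 / 3) ^ (m - l)) := by
  obtain ⟨a, rfl⟩ := Nat.exists_eq_add_of_le hl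
  obtain ⟨d, rfl⟩ := Nat.exists_eq_add_of_le hil
  have e1 : i + d + a - (i + d) = a := by omega
  have e2 : i + d - i = d := by omega
  rw [e1, e2]
  have h1 : ((i + a : ℕ) : ℝ) ≤ 2 ^ (i + a) := by
    exact_mod_cast (Nat.lt_two_pow_self (n := i + a)).le
  have h2 : (3 : ℝ) ^ (i + d + a) * ((2 / 3) ^ i * (2 / 3) ^ a) = 2 ^ (i + a) * 3 ^ d := by
    rw [div_pow, div_pow, pow_add, pow_add, pow_add]
    have h3 : (3 : ℝ) ^ i ≠ 0 := by positivity
    have h4 : (3 : ℝ) ^ a ≠ 0 := by positivity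
    field_simp
  rw [h2]
  exact mul_le_mul_of_nonneg_right h1 (by positivity)

theorem geo_bound (n : ℕ) : ∑ i ∈ range n, ((2 : ℝ) / 3) ^ i ≤ 3 := by
  have h := geom_sum_eq (x := (2 : ℝ) / 3) (by norm_num) n
  rw [h]
  have : (0 : ℝ) ≤ (2 / 3) ^ n := by positivity
  rw [div_le_iff_of_neg (by norm_num)]
  linarith

theorem double_sum (m : ℕ) :
    ∑ x ∈ prs m, ((x.1 + (m - x.2) : ℕ) : ℝ) * 3 ^ (x.2 - x.1) ≤ 9 * 3 ^ m := by
  have h1 : ∑ x ∈ prs m, ((x.1 + (m - x.2) : ℕ) : ℝ) * 3 ^ (x.2 - x.1) ≤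
      ∑ x ∈ range (m + 1) ×ˢ range (m + 1), 3 ^ m * ((2 / 3 : ℝ) ^ x.1 * (2 / 3) ^ (m - x.2)) := by
    refine (sum_le_sum (fun x hx => ?_)).trans (sum_le_sum_of_subset_of_nonneg
      (filter_subset _ _) (fun x _ _ => by positivity))
    rw [mem_prs] at hx
    exact term_bound hx.1 hx.2
  refine h1.trans ?_
  rw [← mul_sum, sum_product]
  have h2 : ∀ i ∈ range (m + 1), ∑ l ∈ range (m + 1), (2 / 3 : ℝ) ^ i * (2 / 3) ^ (m - l) ≤
      (2 / 3) ^ i * 3 := by
    intro i _
    rw [← mul_sum]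
    apply mul_le_mul_of_nonneg_left _ (by positivity)
    have h3 := sum_range_reflect (fun j => ((2 : ℝ) / 3) ^ j) (m + 1)
    have h4 : ∑ j ∈ range (m + 1), ((2 : ℝ) / 3) ^ (m + 1 - 1 - j) =
        ∑ l ∈ range (m + 1), (2 / 3 : ℝ) ^ (m - l) := by
      apply sum_congr rfl
      intro j _
      rfl
    rw [← h4, h3]
    exact geo_bound _
  have h5 := sum_le_sum h2
  rw [← sum_mul] at h5
  have h6 := geo_bound (m + 1)
  have h7 : (0 : ℝ) < 3 ^ m := by positivity
  calc (3 : ℝ) ^ m * _ ≤ 3 ^ m * ((∑ i ∈ range (m + 1), (2 / 3 : ℝ) ^ i) * 3) :=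
        mul_le_mul_of_nonneg_left h5 h7.le
    _ ≤ 3 ^ m * (3 * 3) := by
        apply mul_le_mul_of_nonneg_left _ h7.le
        linarith
    _ = 9 * 3 ^ m := by ring

/-- few beads are not traversed on average -/
theorem sum_NT_le : ∑ S ∈ CS (NG k), ((NT S).card : ℝ) ≤ 9216 * 3 ^ (k + 1) := by
  have h1 : ∀ S ∈ CS (NG k), ((NT S).card : ℝ) ≤
      ∑ x ∈ prs (k + 1), if S ∈ Fam k x.1 x.2 then ((x.1 + (k + 1 - x.2) : ℕ) : ℝ) else 0 := by
    intro S hS
    rw [mem_CSN] at hS
    obtain ⟨i, l, hil, hl, hF⟩ := mem_Fam_of_conn hS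
    have hmem : (i, l) ∈ prs (k + 1) := mem_prs.2 ⟨hil, hl⟩
    have h2 := single_le_sum (f := fun x : ℕ × ℕ =>
      if S ∈ Fam k x.1 x.2 then ((x.1 + (k + 1 - x.2) : ℕ) : ℝ) else 0)
      (fun x _ => by
        show (0 : ℝ) ≤ if S ∈ Fam k x.1 x.2 then ((x.1 + (k + 1 - x.2) : ℕ) : ℝ) else 0
        split_ifs
        · exact Nat.cast_nonneg _
        · exact le_refl _) hmem
    refine le_trans ?_ h2
    show ((NT S).card : ℝ) ≤ if S ∈ Fam k i l then ((i + (k + 1 - l) : ℕ) : ℝ) else 0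
    rw [if_pos hF]
    exact_mod_cast NT_le hil hl hF
  refine (sum_le_sum h1).trans ?_
  rw [sum_comm]
  have h3 : ∀ x ∈ prs (k + 1), ∑ S ∈ CS (NG k),
      (if S ∈ Fam k x.1 x.2 then ((x.1 + (k + 1 - x.2) : ℕ) : ℝ) else 0) ≤
      1024 * (((x.1 + (k + 1 - x.2) : ℕ) : ℝ) * 3 ^ (x.2 - x.1)) := by
    intro x hx
    rw [mem_prs] at hx
    rw [← sum_filter, sum_const, nsmul_eq_mul]
    have h4 : ((CS (NG k)).filter (fun S => S ∈ Fam k x.1 x.2)).card ≤ 1024 * 3 ^ (x.2 - x.1) := by
      refine le_trans (card_le_card ?_) (card_Fam_le hx.1 hx.2)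
      intro S hS
      exact (mem_filter.1 hS).2
    have h5 : (((CS (NG k)).filter (fun S => S ∈ Fam k x.1 x.2)).card : ℝ) ≤
        1024 * 3 ^ (x.2 - x.1) := by exact_mod_cast h4
    have h6 : (0 : ℝ) ≤ ((x.1 + (k + 1 - x.2) : ℕ) : ℝ) := Nat.cast_nonneg _
    calc _ ≤ (1024 * 3 ^ (x.2 - x.1)) * ((x.1 + (k + 1 - x.2) : ℕ) : ℝ) :=
          mul_le_mul_of_nonneg_right h5 h6
      _ = _ := by ring
  refine (sum_le_sum h3).trans ?_
  rw [← mul_sum]
  have := double_sum (k + 1)
  linarith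

/-- the part of `S` in the bead `p` -/
noncomputable def bead (S : Finset (NV k)) (p : Fin k) : Finset (Fin 4) :=
  univ.filter (fun i => dm p i ∈ S)

theorem sum_bead_le (S : Finset (NV k)) : ∑ p : Fin k, (bead S p).card ≤ S.card := by
  rw [← card_sigma]
  refine card_le_card_of_injOn (fun x => dm x.1 x.2) ?_ ?_
  · rintro ⟨p, i⟩ h
    rw [mem_coe, mem_sigma] at h
    unfold bead at h
    exact mem_coe.2 (mem_filter.1 h.2).2
  · rintro ⟨p, i⟩ _ ⟨q, j⟩ _ h
    have h' : dm p i = dm q j := h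
    have h1 := Sum.inr.inj h'
    have h2 := (Prod.mk.inj h1).1
    have h3 := (Prod.mk.inj h1).2
    subst h2; subst h3
    rfl

theorem bead_ge_three {S : Finset (NV k)} {p : Fin k} (h : thr S p) : 3 ≤ (bead S p).card := by
  obtain ⟨h0, h3, h12⟩ := h
  rcases h12 with h1 | h2
  · have : ({0, 1, 3} : Finset (Fin 4)) ⊆ bead S p := by
      intro i hi
      unfold bead
      rw [mem_filter]
      refine ⟨mem_univ _, ?_⟩
      rw [mem_insert, mem_insert, mem_singleton] at hi
      rcases hi with rfl | rfl | rfl <;> assumption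
    have := card_le_card this
    simpa using this
  · have : ({0, 2, 3} : Finset (Fin 4)) ⊆ bead S p := by
      intro i hi
      unfold bead
      rw [mem_filter]
      refine ⟨mem_univ _, ?_⟩
      rw [mem_insert, mem_insert, mem_singleton] at hi
      rcases hi with rfl | rfl | rfl <;> assumption
    have := card_le_card this
    simpa using this

theorem bead_eq_four {S : Finset (NV k)} {p : Fin k} (h : thr S p) (h1 : dm p 1 ∈ S)
    (h2 : dm p 2 ∈ S) : (bead S p).card = 4 := by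
  have : bead S p = univ := by
    apply eq_univ_of_forall
    intro i
    unfold bead
    rw [mem_filter]
    refine ⟨mem_univ _, ?_⟩
    obtain ⟨h0, h3, _⟩ := h
    fin_cases i <;> assumption
  rw [this, card_univ, Fintype.card_fin]

/-- sets traversing `p` -/
noncomputable def CT (k : ℕ) (p : Fin k) : Finset (Finset (NV k)) :=
  (CS (NG k)).filter (fun S => thr S p)

/-- sets traversing `p` with both inner vertices -/
noncomputable def CB (k : ℕ) (p : Fin k) : Finset (Finset (NV k)) :=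
  (CT k p).filter (fun S => dm p 1 ∈ S ∧ dm p 2 ∈ S)

theorem dm_ne12 (p : Fin k) : dm p 1 ≠ dm p 2 := by
  intro h
  have := (Prod.mk.inj (Sum.inr.inj h)).2
  exact absurd this (by decide)

theorem thr_insert {S : Finset (NV k)} {p : Fin k} (h : thr S p) (v : NV k) :
    thr (insert v S) p := by
  obtain ⟨h0, h3, h12⟩ := h
  refine ⟨mem_insert_of_mem h0, mem_insert_of_mem h3, ?_⟩
  rcases h12 with h1 | h2
  · exact Or.inl (mem_insert_of_mem h1)
  · exact Or.inr (mem_insert_of_mem h2)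

theorem conn_insertN {S : Finset (NV k)} (hS : Conn (NG k) S) {u w : NV k} (hu : u ∈ S)
    (huw : (NG k).Adj u w) : Conn (NG k) (insert w S) := by
  by_cases hw : w ∈ S
  · rw [insert_eq_of_mem hw]; exact hS
  refine conn_of_base (x := w) (mem_insert_self w S) ?_
  intro T hT hTne hwT hcl
  have hTS : T ⊆ S := by
    intro a ha
    rcases mem_insert.1 (hT ha) with h | h
    · subst h; exact absurd ha hwT
    · exact h
  have := hS.eq_of_closed hTS hTne (fun a ha b hb hbT => hcl a ha b (mem_insert_of_mem hb) hbT)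
  subst this
  exact hcl u hu w (mem_insert_self _ _) hwT huw

theorem CS_add {S : Finset (NV k)} {u w : NV k} (hS : S ∈ CS (NG k)) (hu : u ∈ S)
    (huw : (NG k).Adj u w) : insert w S ∈ CS (NG k) :=
  mem_CSN.2 (conn_insertN (mem_CSN.1 hS) hu huw)

theorem CT_le (p : Fin k) : (CT k p).card ≤ 3 * (CB k p).card := by
  have hcover : CT k p ⊆ CB k p ∪ ((CT k p).filter (fun S => dm p 2 ∉ S) ∪
      (CT k p).filter (fun S => dm p 1 ∉ S)) := by
    intro S hS
    rw [mem_union, mem_union]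
    unfold CB
    rw [mem_filter, mem_filter, mem_filter]
    by_cases h1 : dm p 1 ∈ S
    · by_cases h2 : dm p 2 ∈ S
      · exact Or.inl ⟨hS, h1, h2⟩
      · exact Or.inr (Or.inl ⟨hS, h2⟩)
    · exact Or.inr (Or.inr ⟨hS, h1⟩)
  have hA : ((CT k p).filter (fun S => dm p 2 ∉ S)).card ≤ (CB k p).card := by
    refine card_le_card_of_injOn (fun S => insert (dm p 2) S) ?_ ?_
    · intro S hS
      rw [mem_coe, mem_filter] at hS
      unfold CT at hS
      rw [mem_filter] at hS
      obtain ⟨⟨hc, ht⟩, h2⟩ := hS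
      rw [mem_coe]
      unfold CB CT
      rw [mem_filter, mem_filter]
      refine ⟨⟨CS_add hc ht.1 (dd_of (by decide)), thr_insert ht _⟩, ?_, mem_insert_self _ _⟩
      rcases ht.2.2 with h | h
      · exact mem_insert_of_mem h
      · exact absurd h h2
    · intro S hS S' hS' h
      rw [mem_coe, mem_filter] at hS hS'
      have h' : insert (dm p 2) S = insert (dm p 2) S' := h
      rw [← erase_insert hS.2, h', erase_insert hS'.2]
  have hB : ((CT k p).filter (fun S => dm p 1 ∉ S)).card ≤ (CB k p).card := by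
    refine card_le_card_of_injOn (fun S => insert (dm p 1) S) ?_ ?_
    · intro S hS
      rw [mem_coe, mem_filter] at hS
      unfold CT at hS
      rw [mem_filter] at hS
      obtain ⟨⟨hc, ht⟩, h1⟩ := hS
      rw [mem_coe]
      unfold CB CT
      rw [mem_filter, mem_filter]
      refine ⟨⟨CS_add hc ht.1 (dd_of (by decide)), thr_insert ht _⟩, mem_insert_self _ _, ?_⟩
      rcases ht.2.2 with h | h
      · exact absurd h h1
      · exact mem_insert_of_mem h
    · intro S hS S' hS' h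
      rw [mem_coe, mem_filter] at hS hS'
      have h' : insert (dm p 1) S = insert (dm p 1) S' := h
      rw [← erase_insert hS.2, h', erase_insert hS'.2]
  have h1 := card_le_card hcover
  have h2 := card_union_le (CB k p) ((CT k p).filter (fun S => dm p 2 ∉ S) ∪
      (CT k p).filter (fun S => dm p 1 ∉ S))
  have h3 := card_union_le ((CT k p).filter (fun S => dm p 2 ∉ S))
      ((CT k p).filter (fun S => dm p 1 ∉ S))
  omega

theorem bead_sum_ge (p : Fin k) :
    10 * (CT k p).card ≤ 3 * ∑ S ∈ CS (NG k), (bead S p).card := by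
  have h1 : 3 * (CT k p).card + (CB k p).card ≤ ∑ S ∈ CT k p, (bead S p).card := by
    have h2 : ∀ S ∈ CT k p, 3 + (if dm p 1 ∈ S ∧ dm p 2 ∈ S then 1 else 0) ≤ (bead S p).card := by
      intro S hS
      unfold CT at hS
      rw [mem_filter] at hS
      split_ifs with h
      · rw [bead_eq_four hS.2 h.1 h.2]
      · exact bead_ge_three hS.2
    have h3 := sum_le_sum h2
    rw [sum_add_distrib, sum_const, smul_eq_mul, ← card_filter] at h3
    unfold CB
    rw [mul_comm]
    exact h3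
  have h4 : ∑ S ∈ CT k p, (bead S p).card ≤ ∑ S ∈ CS (NG k), (bead S p).card :=
    sum_le_sum_of_subset (filter_subset _ _)
  have h5 := CT_le p
  omega

theorem sum_TR_le : 10 * ∑ S ∈ CS (NG k), (TR S).card ≤ 3 * ∑ S ∈ CS (NG k), S.card := by
  have h1 : ∑ S ∈ CS (NG k), (TR S).card = ∑ p : Fin k, (CT k p).card := by
    unfold TR CT
    simp_rw [card_filter]
    rw [sum_comm]
  rw [h1, mul_sum]
  refine (sum_le_sum (fun p _ => bead_sum_ge p)).trans ?_
  rw [← mul_sum, sum_comm]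
  exact Nat.mul_le_mul_left 3 (sum_le_sum (fun S _ => sum_bead_le S))

/-- lower bound for the total size -/
theorem lower (hk : 1 ≤ k) :
    10 * ((k : ℝ) - 27648) * (CS (NG k)).card ≤ 3 * ∑ S ∈ CS (NG k), (S.card : ℝ) := by
  have h1 : (10 : ℝ) * ∑ S ∈ CS (NG k), ((TR S).card : ℝ) ≤ 3 * ∑ S ∈ CS (NG k), (S.card : ℝ) := by
    exact_mod_cast sum_TR_le (k := k)
  have h2 : ∑ S ∈ CS (NG k), ((TR S).card : ℝ) + ∑ S ∈ CS (NG k), ((NT S).card : ℝ) =
      k * (CS (NG k)).card := by
    rw [← sum_add_distrib]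
    have : ∀ S ∈ CS (NG k), ((TR S).card : ℝ) + ((NT S).card : ℝ) = k := by
      intro S _
      exact_mod_cast TR_add_NT S
    rw [sum_congr rfl this, sum_const, nsmul_eq_mul, mul_comm]
  have h3 := sum_NT_le (k := k)
  have h4 : (3 : ℝ) ^ k ≤ (CS (NG k)).card := by exact_mod_cast card_CS_ge hk
  rw [pow_succ] at h3
  nlinarith

end Pool.Agent.ConnDens
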