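import Pool.Agent.ConnDens.Average

/-!
# Chains of diamonds: cubic graphs whose connected set density tends to `5/6`
-/

set_option autoImplicit false
set_option linter.unusedSectionVars false

namespace Pool.Agent.ConnDens

open Finset

open scoped Classical

/-- vertices: two end caps with `5` vertices and `k` diamonds -/
abbrev NV (k : ℕ) := (Fin 5 ⊕ Fin 5) ⊕ (Fin k × Fin 4)

/-- left cap vertex -/
abbrev cl (k : ℕ) (i : Fin 5) : NV k := Sum.inl (Sum.inl i)
/-- right cap vertex -/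
abbrev cr (k : ℕ) (i : Fin 5) : NV k := Sum.inl (Sum.inr i)
/-- diamond vertex -/
abbrev dm {k : ℕ} (p : Fin k) (i : Fin 4) : NV k := Sum.inr (p, i)

/-- edges inside a cap -/
def capAdj (i j : Fin 5) : Bool :=
  ((i == 0) && (j == 1 || j == 2)) || ((j == 0) && (i == 1 || i == 2)) ||
  ((i == 1 || i == 2) && (j == 3 || j == 4)) || ((j == 1 || j == 2) && (i == 3 || i == 4)) ||
  (i == 3 && j == 4) || (i == 4 && j == 3)

/-- edges inside a diamond (all but `03`) -/
def diaAdj (i j : Fin 4) : Bool :=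
  (i != j) && !(i == 0 && j == 3) && !(i == 3 && j == 0)

/-- adjacency -/
def nadj (k : ℕ) : NV k → NV k → Prop
  | Sum.inl (Sum.inl i), Sum.inl (Sum.inl j) => capAdj i j = true
  | Sum.inl (Sum.inr i), Sum.inl (Sum.inr j) => capAdj i j = true
  | Sum.inl (Sum.inl _), Sum.inl (Sum.inr _) => False
  | Sum.inl (Sum.inr _), Sum.inl (Sum.inl _) => False
  | Sum.inl (Sum.inl i), Sum.inr (p, j) => i = 0 ∧ p.val = 0 ∧ j = 0
  | Sum.inr (p, j), Sum.inl (Sum.inl i) => i = 0 ∧ p.val = 0 ∧ j = 0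
  | Sum.inl (Sum.inr i), Sum.inr (p, j) => i = 0 ∧ p.val + 1 = k ∧ j = 3
  | Sum.inr (p, j), Sum.inl (Sum.inr i) => i = 0 ∧ p.val + 1 = k ∧ j = 3
  | Sum.inr (p, i), Sum.inr (q, j) => (p = q ∧ diaAdj i j = true) ∨
      (p.val + 1 = q.val ∧ i = 3 ∧ j = 0) ∨ (q.val + 1 = p.val ∧ j = 3 ∧ i = 0)

theorem capAdj_symm : ∀ i j : Fin 5, capAdj i j = true → capAdj j i = true := by decide
theorem capAdj_irr : ∀ i : Fin 5, ¬ capAdj i i = true := by decide
theorem diaAdj_symm : ∀ i j : Fin 4, diaAdj i j = true → diaAdj j i = true := by decide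
theorem diaAdj_irr : ∀ i : Fin 4, ¬ diaAdj i i = true := by decide

/-- the chain of `k` diamonds -/
def NG (k : ℕ) : SimpleGraph (NV k) where
  Adj := nadj k
  symm := by
    constructor
    rintro ((i | i) | ⟨p, i⟩) ((j | j) | ⟨q, j⟩) h
    · exact capAdj_symm _ _ h
    · exact h
    · exact h
    · exact h
    · exact capAdj_symm _ _ h
    · exact h
    · exact h
    · exact h
    · rcases h with ⟨h1, h2⟩ | h | h
      · exact Or.inl ⟨h1.symm, diaAdj_symm _ _ h2⟩
      · exact Or.inr (Or.inr h)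
      · exact Or.inr (Or.inl h)
  loopless := by
    constructor
    rintro ((i | i) | ⟨p, i⟩) h
    · exact capAdj_irr _ h
    · exact capAdj_irr _ h
    · rcases h with ⟨_, h2⟩ | ⟨h, _⟩ | ⟨h, _⟩
      · exact diaAdj_irr _ h2
      · omega
      · omega

theorem adj_ll {k : ℕ} {i j : Fin 5} : (NG k).Adj (cl k i) (cl k j) ↔ capAdj i j = true := Iff.rfl
theorem adj_rr {k : ℕ} {i j : Fin 5} : (NG k).Adj (cr k i) (cr k j) ↔ capAdj i j = true := Iff.rfl
theorem adj_lr {k : ℕ} {i j : Fin 5} : (NG k).Adj (cl k i) (cr k j) ↔ False := Iff.rfl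
theorem adj_rl {k : ℕ} {i j : Fin 5} : (NG k).Adj (cr k i) (cl k j) ↔ False := Iff.rfl
theorem adj_ld {k : ℕ} {i : Fin 5} {p : Fin k} {j : Fin 4} :
    (NG k).Adj (cl k i) (dm p j) ↔ i = 0 ∧ p.val = 0 ∧ j = 0 := Iff.rfl
theorem adj_dl {k : ℕ} {i : Fin 5} {p : Fin k} {j : Fin 4} :
    (NG k).Adj (dm p j) (cl k i) ↔ i = 0 ∧ p.val = 0 ∧ j = 0 := Iff.rfl
theorem adj_rd {k : ℕ} {i : Fin 5} {p : Fin k} {j : Fin 4} :
    (NG k).Adj (cr k i) (dm p j) ↔ i = 0 ∧ p.val + 1 = k ∧ j = 3 := Iff.rfl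
theorem adj_dr {k : ℕ} {i : Fin 5} {p : Fin k} {j : Fin 4} :
    (NG k).Adj (dm p j) (cr k i) ↔ i = 0 ∧ p.val + 1 = k ∧ j = 3 := Iff.rfl
theorem adj_dd {k : ℕ} {p q : Fin k} {i j : Fin 4} :
    (NG k).Adj (dm p i) (dm q j) ↔ (p = q ∧ diaAdj i j = true) ∨
      (p.val + 1 = q.val ∧ i = 3 ∧ j = 0) ∨ (q.val + 1 = p.val ∧ j = 3 ∧ i = 0) := Iff.rfl

theorem cap_nb : ∀ i : Fin 5, i ≠ 0 → ∃ x y z : Fin 5, x ≠ y ∧ x ≠ z ∧ y ≠ z ∧
    ∀ j, capAdj i j = true ↔ j = x ∨ j = y ∨ j = z := by decide +kernel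
theorem cap_nb0 : ∀ j : Fin 5, capAdj 0 j = true ↔ j = 1 ∨ j = 2 := by decide +kernel
theorem dia_nb : ∀ i : Fin 4, i ≠ 0 → i ≠ 3 → ∃ x y z : Fin 4, x ≠ y ∧ x ≠ z ∧ y ≠ z ∧
    ∀ j, diaAdj i j = true ↔ j = x ∨ j = y ∨ j = z := by decide +kernel
theorem dia_nb0 : ∀ j : Fin 4, diaAdj 0 j = true ↔ j = 1 ∨ j = 2 := by decide +kernel
theorem dia_nb3 : ∀ j : Fin 4, diaAdj 3 j = true ↔ j = 1 ∨ j = 2 := by decide +kernel

/-- the chain is cubic -/
theorem NG_cubic {k : ℕ} (hk : 1 ≤ k) (v : NV k) : ((NG k).neighborSet v).ncard = 3 := by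
  rw [Set.ncard_eq_three]
  rcases v with (i | i) | ⟨p, i⟩
  · by_cases hi : i = 0
    · subst hi
      refine ⟨cl k 1, cl k 2, dm ⟨0, hk⟩ 0, by simp, by simp, by simp, ?_⟩
      ext w
      rw [SimpleGraph.mem_neighborSet]
      rcases w with (j | j) | ⟨q, j⟩
      · change (NG k).Adj (cl k 0) (cl k j) ↔ _
        rw [adj_ll, cap_nb0]; simp
      · change (NG k).Adj (cl k 0) (cr k j) ↔ _
        rw [adj_lr]; simp
      · change (NG k).Adj (cl k 0) (dm q j) ↔ _
        rw [adj_ld]
        simp only [true_and, Set.mem_insert_iff, reduceCtorEq, Set.mem_singleton_iff,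
          Sum.inr.injEq, Prod.mk.injEq, false_or, Fin.ext_iff]
    · obtain ⟨x, y, z, h1, h2, h3, h4⟩ := cap_nb i hi
      refine ⟨cl k x, cl k y, cl k z, by simpa using h1, by simpa using h2, by simpa using h3, ?_⟩
      ext w
      rw [SimpleGraph.mem_neighborSet]
      rcases w with (j | j) | ⟨q, j⟩
      · change (NG k).Adj (cl k i) (cl k j) ↔ _
        rw [adj_ll, h4]; simp
      · change (NG k).Adj (cl k i) (cr k j) ↔ _
        rw [adj_lr]; simp
      · change (NG k).Adj (cl k i) (dm q j) ↔ _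
        rw [adj_ld]; simp [hi]
  · by_cases hi : i = 0
    · subst hi
      refine ⟨cr k 1, cr k 2, dm ⟨k - 1, by omega⟩ 3, by simp, by simp, by simp, ?_⟩
      ext w
      rw [SimpleGraph.mem_neighborSet]
      rcases w with (j | j) | ⟨q, j⟩
      · change (NG k).Adj (cr k 0) (cl k j) ↔ _
        rw [adj_rl]; simp
      · change (NG k).Adj (cr k 0) (cr k j) ↔ _
        rw [adj_rr, cap_nb0]; simp
      · change (NG k).Adj (cr k 0) (dm q j) ↔ _
        rw [adj_rd]
        simp only [true_and, Set.mem_insert_iff, reduceCtorEq, Set.mem_singleton_iff,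
          Sum.inr.injEq, Prod.mk.injEq, false_or, Fin.ext_iff]
        have := q.isLt
        constructor
        · rintro ⟨h1, h2⟩; exact ⟨by omega, h2⟩
        · rintro ⟨h1, h2⟩; exact ⟨by omega, h2⟩
    · obtain ⟨x, y, z, h1, h2, h3, h4⟩ := cap_nb i hi
      refine ⟨cr k x, cr k y, cr k z, by simpa using h1, by simpa using h2, by simpa using h3, ?_⟩
      ext w
      rw [SimpleGraph.mem_neighborSet]
      rcases w with (j | j) | ⟨q, j⟩
      · change (NG k).Adj (cr k i) (cl k j) ↔ _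
        rw [adj_rl]; simp
      · change (NG k).Adj (cr k i) (cr k j) ↔ _
        rw [adj_rr, h4]; simp
      · change (NG k).Adj (cr k i) (dm q j) ↔ _
        rw [adj_rd]; simp [hi]
  · by_cases hi : i = 0
    · subst hi
      by_cases hp : p.val = 0
      · refine ⟨dm p 1, dm p 2, cl k 0, by simp, by simp, by simp, ?_⟩
        ext w
        rw [SimpleGraph.mem_neighborSet]
        rcases w with (j | j) | ⟨q, j⟩
        · change (NG k).Adj (dm p 0) (cl k j) ↔ _
          rw [adj_dl]; simp [hp]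
        · change (NG k).Adj (dm p 0) (cr k j) ↔ _
          rw [adj_dr]; simp
        · change (NG k).Adj (dm p 0) (dm q j) ↔ _
          rw [adj_dd, dia_nb0]
          have : ¬ (q.val + 1 = p.val) := by omega
          simp only [this, false_and, or_false]
          simp
          constructor
          · rintro ⟨rfl, h | h⟩
            · exact Or.inl ⟨rfl, h⟩
            · exact Or.inr ⟨rfl, h⟩
          · rintro (⟨rfl, h⟩ | ⟨rfl, h⟩)
            · exact ⟨rfl, Or.inl h⟩
            · exact ⟨rfl, Or.inr h⟩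
      · refine ⟨dm p 1, dm p 2, dm ⟨p.val - 1, by omega⟩ 3, by simp, by simp, by simp, ?_⟩
        ext w
        rw [SimpleGraph.mem_neighborSet]
        rcases w with (j | j) | ⟨q, j⟩
        · change (NG k).Adj (dm p 0) (cl k j) ↔ _
          rw [adj_dl]; simp [hp]
        · change (NG k).Adj (dm p 0) (cr k j) ↔ _
          rw [adj_dr]; simp
        · change (NG k).Adj (dm p 0) (dm q j) ↔ _
          rw [adj_dd, dia_nb0]
          simp
          constructor
          · rintro (⟨rfl, h | h⟩ | ⟨h1, h2⟩)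
            · exact Or.inl ⟨rfl, h⟩
            · exact Or.inr (Or.inl ⟨rfl, h⟩)
            · exact Or.inr (Or.inr ⟨Fin.ext (by simp; omega), h2⟩)
          · rintro (⟨rfl, h⟩ | ⟨rfl, h⟩ | ⟨rfl, h⟩)
            · exact Or.inl ⟨rfl, Or.inl h⟩
            · exact Or.inl ⟨rfl, Or.inr h⟩
            · exact Or.inr ⟨by simp; omega, h⟩
    · by_cases hi3 : i = 3
      · subst hi3
        by_cases hp : p.val + 1 = k
        · refine ⟨dm p 1, dm p 2, cr k 0, by simp, by simp, by simp, ?_⟩
          ext w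
          rw [SimpleGraph.mem_neighborSet]
          rcases w with (j | j) | ⟨q, j⟩
          · change (NG k).Adj (dm p 3) (cl k j) ↔ _
            rw [adj_dl]; simp
          · change (NG k).Adj (dm p 3) (cr k j) ↔ _
            rw [adj_dr]; simp [hp]
          · change (NG k).Adj (dm p 3) (dm q j) ↔ _
            rw [adj_dd, dia_nb3]
            have : ¬ (p.val + 1 = q.val) := by have := q.isLt; omega
            simp only [this, false_and, false_or]
            simp
            constructor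
            · rintro ⟨rfl, h | h⟩
              · exact Or.inl ⟨rfl, h⟩
              · exact Or.inr ⟨rfl, h⟩
            · rintro (⟨rfl, h⟩ | ⟨rfl, h⟩)
              · exact ⟨rfl, Or.inl h⟩
              · exact ⟨rfl, Or.inr h⟩
        · refine ⟨dm p 1, dm p 2, dm ⟨p.val + 1, by have := p.isLt; omega⟩ 0,
            by simp, by simp, by simp, ?_⟩
          ext w
          rw [SimpleGraph.mem_neighborSet]
          rcases w with (j | j) | ⟨q, j⟩
          · change (NG k).Adj (dm p 3) (cl k j) ↔ _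
            rw [adj_dl]; simp
          · change (NG k).Adj (dm p 3) (cr k j) ↔ _
            rw [adj_dr]; simp [hp]
          · change (NG k).Adj (dm p 3) (dm q j) ↔ _
            rw [adj_dd, dia_nb3]
            simp
            constructor
            · rintro (⟨rfl, h | h⟩ | ⟨h1, h2⟩)
              · exact Or.inl ⟨rfl, h⟩
              · exact Or.inr (Or.inl ⟨rfl, h⟩)
              · exact Or.inr (Or.inr ⟨Fin.ext (by simp; omega), h2⟩)
            · rintro (⟨rfl, h⟩ | ⟨rfl, h⟩ | ⟨rfl, h⟩)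
              · exact Or.inl ⟨rfl, Or.inl h⟩
              · exact Or.inl ⟨rfl, Or.inr h⟩
              · exact Or.inr ⟨by simp, h⟩
      · obtain ⟨x, y, z, h1, h2, h3, h4⟩ := dia_nb i hi hi3
        refine ⟨dm p x, dm p y, dm p z, by simpa using h1, by simpa using h2,
          by simpa using h3, ?_⟩
        ext w
        rw [SimpleGraph.mem_neighborSet]
        rcases w with (j | j) | ⟨q, j⟩
        · change (NG k).Adj (dm p i) (cl k j) ↔ _
          rw [adj_dl]; simp [hi]
        · change (NG k).Adj (dm p i) (cr k j) ↔ _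
          rw [adj_dr]; simp [hi3]
        · change (NG k).Adj (dm p i) (dm q j) ↔ _
          rw [adj_dd, h4]
          simp [hi, hi3]
          constructor
          · rintro ⟨rfl, h | h | h⟩
            · exact Or.inl ⟨rfl, h⟩
            · exact Or.inr (Or.inl ⟨rfl, h⟩)
            · exact Or.inr (Or.inr ⟨rfl, h⟩)
          · rintro (⟨rfl, h⟩ | ⟨rfl, h⟩ | ⟨rfl, h⟩)
            · exact ⟨rfl, Or.inl h⟩
            · exact ⟨rfl, Or.inr (Or.inl h)⟩
            · exact ⟨rfl, Or.inr (Or.inr h)⟩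

end Pool.Agent.ConnDens
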