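import Pool.Agent.ConnDens.Value

/-!
# The pointwise inequality: induction
-/

set_option autoImplicit false
set_option linter.unusedSectionVars false
set_option linter.unusedVariables false

namespace Pool.Agent.ConnDens

open Finset

open scoped Classical

variable {V : Type} {G : SimpleGraph V}

theorem exists_minSep {S : Finset V} (h : ∃ x K, Sep G S x K) :
    ∃ x K, Sep G S x K ∧ MinSep G S K := by
  have hex : ∃ n, ∃ x K, Sep G S x K ∧ K.card = n := by
    obtain ⟨x, K, h⟩ := h
    exact ⟨K.card, x, K, h, rfl⟩
  obtain ⟨x, K, h1, h2⟩ := Nat.find_spec hex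
  refine ⟨x, K, h1, ?_⟩
  intro x' K' h'
  rw [h2]
  exact Nat.find_min' hex ⟨x', K', h', rfl⟩

theorem pointwise_marked : ∀ (n : ℕ) (S : Finset V) (m : V → ℕ), S.card = n → Conn G S →
    0 ≤ ∑ u ∈ S, vl G S m u := by
  intro n
  induction n using Nat.strong_induction_on with
  | _ n ih =>
    intro S m hn hS
    by_cases hcut : ∃ x ∈ S, (S.erase x).Nonempty ∧ ¬ Conn G (S.erase x)
    · obtain ⟨x₀, hx₀, hne₀, hc₀⟩ := hcut
      obtain ⟨K₀, hK₀⟩ := exists_sep hx₀ hne₀ hc₀
      obtain ⟨x, K, h, hmin⟩ := exists_minSep ⟨x₀, K₀, hK₀⟩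
      have hKS := sep_subS h
      have hxK := sep_x_notMem h
      set d := (K.filter (fun w => G.Adj x w)).card with hd
      set m' : V → ℕ := Function.update m x (m x + d) with hm'
      have hlt : (S \ K).card < n := by
        rw [← hn]
        apply card_lt_card
        rw [ssubset_iff_of_subset sdiff_subset]
        obtain ⟨k, hk⟩ := h.ne
        exact ⟨k, hKS hk, fun h' => (mem_sdiff.1 h').2 hk⟩
      have hrec := ih _ hlt (S \ K) m' rfl (conn_rest hS h)
      have hdpos : 1 ≤ d := by
        obtain ⟨y, hy, hxy⟩ := exists_nbr_x hS h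
        exact card_pos.2 ⟨y, mem_filter.2 ⟨hy, hxy⟩⟩
      have hxS' : x ∈ S \ K := mem_sdiff.2 ⟨h.mem, hxK⟩
      have hm'x : m' x = m x + d := by rw [hm', Function.update_self]
      have hm'u : ∀ u, u ≠ x → m' u = m u := by
        intro u hu; rw [hm', Function.update_of_ne hu]
      -- non-cut vertices
      have hNC : ∀ u, u ∈ S \ K → (u ∈ NC G S m ↔ u ∈ NC G (S \ K) m') := by
        intro u hu
        by_cases hux : u = x
        · subst hux
          constructor
          · intro h'; exact absurd h' (x_notNC h)
          · intro h'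
            have := mark_of_nc h'
            rw [hm'x] at this
            omega
        · have hu' := mem_sdiff.1 hu
          unfold NC
          rw [mem_filter, mem_filter, hm'u u hux, conn_erase_iff hS h hu'.1 hu'.2 hux]
          exact ⟨fun h' => ⟨hu, h'.2⟩, fun h' => ⟨hu'.1, h'.2⟩⟩
      have hNCsub : ∀ (T : Finset V) (m : V → ℕ) (u : V), u ∈ NC G T m → u ∈ T := by
        intro T m u hu; unfold NC at hu; exact (mem_filter.1 hu).1
      -- values away from x
      have hval : ∀ u ∈ (S \ K).erase x, vl G S m u = vl G (S \ K) m' u := by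
        intro u hu
        rw [mem_erase] at hu
        have hu' := mem_sdiff.1 hu.2
        have hnoadj : ∀ w ∈ K, ¬ G.Adj u w := fun w hw huw =>
          h.noadj w hw u hu'.1 hu'.2 hu.1 huw.symm
        have e1 : dg G S u = dg G (S \ K) u := by
          unfold dg
          congr 1
          ext w
          simp only [mem_filter, mem_sdiff]
          constructor
          · rintro ⟨h1, h2⟩; exact ⟨⟨h1, fun h3 => hnoadj w h3 h2⟩, h2⟩
          · rintro ⟨⟨h1, -⟩, h2⟩; exact ⟨h1, h2⟩
        have e2 : rr G S m u = rr G (S \ K) m' u := by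
          unfold rr
          congr 1
          ext w
          simp only [mem_filter]
          constructor
          · rintro ⟨h1, h2⟩
            have hwS := hNCsub _ _ _ h1
            have hwK : w ∉ K := fun h3 => hnoadj w h3 h2
            exact ⟨(hNC w (mem_sdiff.2 ⟨hwS, hwK⟩)).1 h1, h2⟩
          · rintro ⟨h1, h2⟩
            exact ⟨(hNC w (hNCsub _ _ _ h1)).2 h1, h2⟩
        unfold vl
        rw [e1, e2, hm'u u hu.1, if_congr (hNC u hu.2) rfl rfl]
      -- value at x
      have hx1 : x ∉ NC G S m := x_notNC h
      have hx2 : x ∉ NC G (S \ K) m' := fun h' => hx1 ((hNC x hxS').2 h')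
      have hdg : dg G S x = dg G (S \ K) x + d := dg_x h
      have hrr : rr G S m x = rr G (S \ K) m' x + (un G K m x).card := by
        unfold rr
        rw [← card_union_of_disjoint]
        · congr 1
          ext w
          simp only [mem_filter, mem_union, mem_un]
          constructor
          · rintro ⟨h1, h2⟩
            by_cases hw : w ∈ K
            · exact Or.inr ⟨hw, mark_of_nc h1, h2⟩
            · exact Or.inl ⟨(hNC w (mem_sdiff.2 ⟨hNCsub _ _ _ h1, hw⟩)).1 h1, h2⟩
          · rintro (⟨h1, h2⟩ | ⟨h1, h2, h3⟩)
            · exact ⟨(hNC w (hNCsub _ _ _ h1)).2 h1, h2⟩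
            · exact ⟨(nc_K hS h hmin h1).2 h2, h3⟩
        · rw [disjoint_left]
          intro w hw hw'
          exact (mem_sdiff.1 (hNCsub _ _ _ (mem_filter.1 hw).1)).2 (mem_un.1 hw').1
      have hvx : vl G S m x = vl G (S \ K) m' x + beta (m x) - beta (m x + d) -
          (if dg G S x + m x ≤ 3 then ((un G K m x).card : ℤ) else 0) := by
        rw [vl_mk hx1, vl_mk hx2, hm'x, hrr]
        have e : dg G (S \ K) x + (m x + d) = dg G S x + m x := by omega
        rw [e]
        split_ifs <;> push_cast <;> ring
      have hpiece := piece (m := m) hS h hmin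
      rw [← hd] at hpiece
      have hβ := beta_add (m x) d
      have hs1 : ∑ u ∈ S, vl G S m u = ∑ u ∈ S \ K, vl G S m u + ∑ u ∈ K, vl G S m u :=
        (sum_sdiff hKS).symm
      have hs2 : ∑ u ∈ S \ K, vl G S m u = vl G S m x + ∑ u ∈ (S \ K).erase x, vl G S m u :=
        (add_sum_erase _ _ hxS').symm
      have hs3 : ∑ u ∈ S \ K, vl G (S \ K) m' u =
          vl G (S \ K) m' x + ∑ u ∈ (S \ K).erase x, vl G (S \ K) m' u :=
        (add_sum_erase _ _ hxS').symm
      rw [hs1, hs2, sum_congr rfl hval, hvx]
      rw [hs3] at hrec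
      linarith
    · push Not at hcut
      rcases Nat.lt_or_ge S.card 2 with h2 | h2
      · -- a single vertex
        have h1 : S.card = 1 := by have := card_pos.2 hS.1; omega
        obtain ⟨a, ha⟩ := card_eq_one.1 h1
        have hNC : NC G S m = ∅ := by
          rw [eq_empty_iff_forall_notMem]
          intro w hw
          unfold NC at hw
          rw [mem_filter, ha, mem_singleton] at hw
          have := hw.2.2.1
          rw [hw.1] at this
          simp at this
        have hdg : dg G S a = 0 := by
          unfold dg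
          rw [card_eq_zero, eq_empty_iff_forall_notMem]
          intro w hw
          rw [mem_filter, ha, mem_singleton] at hw
          exact hw.2.ne hw.1.symm
        have hrr : rr G S m a = 0 := by
          have := rr_le_dg (G := G) (S := S) (m := m) (u := a)
          omega
        have hval : 0 ≤ vl G S m a := by
          rw [vl_mk (by rw [hNC]; exact notMem_empty _), hdg, hrr]
          unfold beta
          split_ifs <;> omega
        have : ∑ u ∈ S, vl G S m u = vl G S m a := by
          have : ∀ T : Finset V, T = {a} → ∑ u ∈ T, vl G S m u = vl G S m a := by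
            rintro T rfl; exact sum_singleton _ _
          exact this S ha
        rw [this]; exact hval
      · apply sum_nonneg
        intro u hu
        have hd := dg_pos hS h2 hu
        by_cases hm : m u = 0
        · have hne : (S.erase u).Nonempty := by
            rw [← card_pos, card_erase_of_mem hu]; omega
          have hnc : u ∈ NC G S m := by
            unfold NC
            exact mem_filter.2 ⟨hu, hm, hcut u hu hne⟩
          have := vl_nc_one hnc hd
          omega
        · exact vl_mk_zero (fun h' => hm (mark_of_nc h')) hm hd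

/-- removable vertices -/
noncomputable def Rem (G : SimpleGraph V) (S : Finset V) : Finset V :=
  S.filter (fun w => Conn G (S.erase w))

/-- low neighbours of `w` in `T` -/
noncomputable def lo (G : SimpleGraph V) (T : Finset V) (w : V) : ℕ :=
  (T.filter (fun u => G.Adj w u ∧ dg G T u ≤ 3)).card

/-- The pointwise inequality for connected sets. -/
theorem pointwise {S : Finset V} (hS : Conn G S) :
    (S.card : ℤ) ≤ ∑ u ∈ S, ((3 - dg G S u : ℕ) : ℤ) + ∑ w ∈ Rem G S, (5 - (lo G S w : ℤ)) := by
  have h := pointwise_marked (G := G) S.card S (fun _ => 0) rfl hS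
  have hNC : NC G S (fun _ => 0) = Rem G S := by
    unfold NC Rem
    ext w
    simp
  have hvl : ∀ u ∈ S, vl G S (fun _ => 0) u = (if u ∈ Rem G S then 5 else 0) - 1 +
      ((3 - dg G S u : ℕ) : ℤ) -
      (if dg G S u ≤ 3 then (((Rem G S).filter (fun w => G.Adj u w)).card : ℤ) else 0) := by
    intro u _
    unfold vl rr
    rw [hNC]
    simp [beta]
  rw [sum_congr rfl hvl] at h
  have e1 : ∑ u ∈ S, (if u ∈ Rem G S then (5 : ℤ) else 0) = ∑ w ∈ Rem G S, 5 := by
    rw [← sum_filter]
    congr 1
    ext w
    rw [mem_filter]
    exact ⟨fun h => h.2, fun h => ⟨by unfold Rem at h; exact (mem_filter.1 h).1, h⟩⟩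
  have e2 : ∑ u ∈ S,
      (if dg G S u ≤ 3 then (((Rem G S).filter (fun w => G.Adj u w)).card : ℤ) else 0) =
      ∑ w ∈ Rem G S, (lo G S w : ℤ) := by
    have a1 : ∀ u ∈ S,
        (if dg G S u ≤ 3 then (((Rem G S).filter (fun w => G.Adj u w)).card : ℤ) else 0) =
        ∑ w ∈ Rem G S, (if G.Adj w u ∧ dg G S u ≤ 3 then (1 : ℤ) else 0) := by
      intro u _
      split_ifs with hu
      · rw [card_filter]
        push_cast
        apply sum_congr rfl
        intro w _
        simp [hu, G.adj_comm]
      · symm
        apply sum_eq_zero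
        intro w _
        rw [if_neg (fun h' => hu h'.2)]
    rw [sum_congr rfl a1, sum_comm]
    apply sum_congr rfl
    intro w _
    unfold lo
    rw [card_filter]
    push_cast
    rfl
  have e3 : ∑ u ∈ S, (1 : ℤ) = S.card := by simp
  simp only [sum_sub_distrib, sum_add_distrib] at h
  rw [e1, e2, e3] at h
  rw [sum_sub_distrib]
  linarith

end Pool.Agent.ConnDens
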