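import Mathlib

/-!
# Connected vertex sets and separating vertices
-/

set_option autoImplicit false

namespace Pool.Agent.ConnDens

open Finset

variable {V : Type} [DecidableEq V]

/-- Connectivity of a finite vertex set, in terms of cuts. -/
def Conn (G : SimpleGraph V) (S : Finset V) : Prop :=
  S.Nonempty ∧ ∀ T ⊆ S, T.Nonempty → T ≠ S → ∃ u ∈ T, ∃ w ∈ S \ T, G.Adj u w

theorem conn_iff (G : SimpleGraph V) (S : Finset V) :
    Conn G S ↔ (G.induce (S : Set V)).Connected := by
  classical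
  constructor
  · rintro ⟨⟨a, ha⟩, h⟩
    have key : ∀ b (hb : b ∈ S), (G.induce (S : Set V)).Reachable ⟨a, ha⟩ ⟨b, hb⟩ := by
      set T : Finset V := S.filter (fun b => ∃ hb : b ∈ S,
        (G.induce (S : Set V)).Reachable ⟨a, ha⟩ ⟨b, hb⟩) with hT
      have haT : a ∈ T := by
        rw [hT, mem_filter]
        exact ⟨ha, ha, SimpleGraph.Reachable.refl _⟩
      have hTS : T = S := by
        by_contra hne
        obtain ⟨u, hu, w, hw, huw⟩ := h T (filter_subset _ _) ⟨a, haT⟩ hne
        rw [mem_sdiff] at hw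
        apply hw.2
        rw [hT, mem_filter] at hu ⊢
        obtain ⟨hu1, hu2, hu3⟩ := hu
        refine ⟨hw.1, hw.1, hu3.trans ?_⟩
        apply SimpleGraph.Adj.reachable
        exact huw
      intro b hb
      rw [← hTS, hT, mem_filter] at hb
      exact hb.2.2
    have : Nonempty (S : Set V) := ⟨⟨a, ha⟩⟩
    exact ⟨fun u v => (key u.1 u.2).symm.trans (key v.1 v.2)⟩
  · intro h
    obtain ⟨⟨a, ha⟩⟩ := h.nonempty
    refine ⟨⟨a, ha⟩, ?_⟩
    intro T hTS ⟨t, ht⟩ hne
    by_contra hcon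
    push Not at hcon
    apply hne
    apply Subset.antisymm hTS
    intro b hb
    obtain ⟨p⟩ := h.preconnected ⟨t, hTS ht⟩ ⟨b, hb⟩
    have : ∀ (u v : (S : Set V)) (p : (G.induce (S : Set V)).Walk u v), u.1 ∈ T → v.1 ∈ T := by
      intro u v p
      induction p with
      | nil => exact id
      | cons hadj _ ih =>
        intro hu
        apply ih
        by_contra hv
        exact hcon _ hu _ (mem_sdiff.2 ⟨Subtype.property _, hv⟩) hadj
    exact this _ _ p ht

/-- `x` separates `K` from the rest of `S`. -/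
structure Sep (G : SimpleGraph V) (S : Finset V) (x : V) (K : Finset V) : Prop where
  mem : x ∈ S
  sub : K ⊆ S.erase x
  ne : K.Nonempty
  proper : K ≠ S.erase x
  noadj : ∀ u ∈ K, ∀ w ∈ S, w ∉ K → w ≠ x → ¬ G.Adj u w

variable {G : SimpleGraph V} {S : Finset V}

theorem exists_sep {x : V} (hx : x ∈ S) (hne : (S.erase x).Nonempty)
    (h : ¬ Conn G (S.erase x)) : ∃ K, Sep G S x K := by
  unfold Conn at h
  push Not at h
  obtain ⟨T, hT1, hT2, hT3, hT4⟩ := h hne
  refine ⟨T, hx, hT1, hT2, hT3, ?_⟩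
  intro u hu w hw hwT hwx
  exact hT4 u hu w (mem_sdiff.2 ⟨mem_erase.2 ⟨hwx, hw⟩, hwT⟩)

/-- A closed nonempty subset of a connected set is everything. -/
theorem Conn.eq_of_closed (hS : Conn G S) {T : Finset V} (hT : T ⊆ S) (hne : T.Nonempty)
    (h : ∀ u ∈ T, ∀ w ∈ S, w ∉ T → ¬ G.Adj u w) : T = S := by
  by_contra hcon
  obtain ⟨u, hu, w, hw, huw⟩ := hS.2 T hT hne hcon
  rw [mem_sdiff] at hw
  exact h u hu w hw.1 hw.2 huw

theorem conn_of_closed (hne : S.Nonempty)
    (h : ∀ T ⊆ S, T.Nonempty → (∀ u ∈ T, ∀ w ∈ S, w ∉ T → ¬ G.Adj u w) → T = S) :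
    Conn G S := by
  refine ⟨hne, ?_⟩
  intro T hT hTne hTS
  by_contra hcon
  push Not at hcon
  exact hTS (h T hT hTne (fun u hu w hw hwT => hcon u hu w (mem_sdiff.2 ⟨hw, hwT⟩)))

/-- the same with a base point outside -/
theorem conn_of_base {x : V} (hx : x ∈ S)
    (h : ∀ T ⊆ S, T.Nonempty → x ∉ T → (∀ u ∈ T, ∀ w ∈ S, w ∉ T → ¬ G.Adj u w) → False) :
    Conn G S := by
  refine conn_of_closed ⟨x, hx⟩ ?_
  intro T hT hTne hcl
  by_contra hTS
  by_cases hxT : x ∈ T
  · refine h (S \ T) sdiff_subset ?_ (fun h' => (mem_sdiff.1 h').2 hxT) ?_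
    · rw [sdiff_nonempty]
      intro hsub
      exact hTS (Subset.antisymm hT hsub)
    · intro u hu w hw hwT huw
      rw [mem_sdiff] at hu
      have hwT' : w ∈ T := by
        by_contra h'
        exact hwT (mem_sdiff.2 ⟨hw, h'⟩)
      exact hcl w hwT' u hu.1 hu.2 huw.symm
  · exact h T hT hTne hxT hcl

section Minimal

variable {x : V} {K : Finset V}

theorem sep_x_notMem (h : Sep G S x K) : x ∉ K := fun hx => (mem_erase.1 (h.sub hx)).1 rfl

theorem sep_subS (h : Sep G S x K) : K ⊆ S := fun _ hu => (mem_erase.1 (h.sub hu)).2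

theorem sep_rest (h : Sep G S x K) : ∃ y ∈ S, y ∉ K ∧ y ≠ x := by
  by_contra hcon
  push Not at hcon
  apply h.proper
  apply Subset.antisymm h.sub
  intro y hy
  rw [mem_erase] at hy
  by_contra hyK
  exact hy.1 (hcon y hy.2 hyK)

/-- the rest is connected -/
theorem conn_rest (hS : Conn G S) (h : Sep G S x K) : Conn G (S \ K) := by
  have hxK := sep_x_notMem h
  refine conn_of_base (x := x) (mem_sdiff.2 ⟨h.mem, hxK⟩) ?_
  intro T hT hTne hxT hcl
  have hTS : T ⊆ S := hT.trans sdiff_subset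
  have := hS.eq_of_closed hTS hTne (by
    intro u hu w hw hwT huw
    by_cases hwK : w ∈ K
    · refine h.noadj w hwK u (hTS hu) (mem_sdiff.1 (hT hu)).2 ?_ huw.symm
      rintro rfl; exact hxT hu
    · exact hcl u hu w (mem_sdiff.2 ⟨hw, hwK⟩) hwT huw)
  rw [this] at hxT
  exact hxT h.mem

/-- removal of a vertex outside `K` -/
theorem conn_erase_iff (hS : Conn G S) (h : Sep G S x K) {w : V} (hw : w ∈ S) (hwK : w ∉ K)
    (hwx : w ≠ x) : Conn G (S.erase w) ↔ Conn G ((S \ K).erase w) := by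
  have hxK := sep_x_notMem h
  constructor
  · intro hc
    refine conn_of_base (x := x) (mem_erase.2 ⟨hwx.symm, mem_sdiff.2 ⟨h.mem, hxK⟩⟩) ?_
    intro T hT hTne hxT hcl
    have hT1 : T ⊆ S.erase w := hT.trans (erase_subset_erase _ sdiff_subset)
    have := hc.eq_of_closed hT1 hTne (by
      intro u hu v hv hvT huv
      by_cases hvK : v ∈ K
      · refine h.noadj v hvK u (mem_erase.1 (hT1 hu)).2 ?_ ?_ huv.symm
        · exact (mem_sdiff.1 (mem_erase.1 (hT hu)).2).2
        · rintro rfl; exact hxT hu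
      · refine hcl u hu v (mem_erase.2 ⟨(mem_erase.1 hv).1, mem_sdiff.2 ⟨(mem_erase.1 hv).2, hvK⟩⟩)
          hvT huv)
    rw [this] at hxT
    exact hxT (mem_erase.2 ⟨hwx.symm, h.mem⟩)
  · intro hc
    refine conn_of_base (x := x) (mem_erase.2 ⟨hwx.symm, h.mem⟩) ?_
    intro T hT hTne hxT hcl
    -- the part outside K is empty
    have h1 : T ⊆ K := by
      intro u hu
      by_contra huK
      have hne : (T \ K).Nonempty := ⟨u, mem_sdiff.2 ⟨hu, huK⟩⟩
      have hsub : T \ K ⊆ (S \ K).erase w := by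
        intro v hv
        rw [mem_sdiff] at hv
        have := mem_erase.1 (hT hv.1)
        exact mem_erase.2 ⟨this.1, mem_sdiff.2 ⟨this.2, hv.2⟩⟩
      have := hc.eq_of_closed hsub hne (by
        intro a ha b hb hbT hab
        rw [mem_erase, mem_sdiff] at hb
        refine hcl a (mem_sdiff.1 ha).1 b (mem_erase.2 ⟨hb.1, hb.2.1⟩) ?_ hab
        intro hbT'
        exact hbT (mem_sdiff.2 ⟨hbT', hb.2.2⟩))
      have hx : x ∈ T \ K := by
        rw [this]; exact mem_erase.2 ⟨hwx.symm, mem_sdiff.2 ⟨h.mem, hxK⟩⟩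
      exact hxT (mem_sdiff.1 hx).1
    have h2 : T ⊆ S := h1.trans (sep_subS h)
    have := hS.eq_of_closed h2 hTne (by
      intro u hu v hv hvT huv
      by_cases hvw : v = w
      · subst hvw
        exact h.noadj u (h1 hu) v hw hwK hwx huv
      · exact hcl u hu v (mem_erase.2 ⟨hvw, hv⟩) hvT huv)
    rw [this] at hxT
    exact hxT h.mem

/-- Minimality of the separated set. -/
def MinSep (G : SimpleGraph V) (S : Finset V) (K : Finset V) : Prop :=
  ∀ x' K', Sep G S x' K' → K.card ≤ K'.card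

/-- the vertices of a minimal separated set are not cut vertices -/
theorem conn_erase_of_min (hS : Conn G S) (h : Sep G S x K) (hmin : MinSep G S K) {w : V}
    (hw : w ∈ K) : Conn G (S.erase w) := by
  have hxK := sep_x_notMem h
  have hwx : w ≠ x := by rintro rfl; exact hxK hw
  have hwS : w ∈ S := sep_subS h hw
  refine conn_of_base (x := x) (mem_erase.2 ⟨hwx.symm, h.mem⟩) ?_
  intro T hT hTne hxT hcl
  by_cases hTK : (T ∩ K).Nonempty
  · have hsep : Sep G S w (T ∩ K) := by
      refine ⟨hwS, ?_, hTK, ?_, ?_⟩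
      · intro u hu
        exact hT (mem_inter.1 hu).1
      · intro heq
        have : x ∈ T ∩ K := by rw [heq]; exact mem_erase.2 ⟨hwx.symm, h.mem⟩
        exact hxT (mem_inter.1 this).1
      · intro u hu v hv hvT hvw huv
        rw [mem_inter] at hu
        by_cases hvT' : v ∈ T
        · have hvK : v ∉ K := fun h' => hvT (mem_inter.2 ⟨hvT', h'⟩)
          refine h.noadj u hu.2 v hv hvK ?_ huv
          rintro rfl; exact hxT hvT'
        · exact hcl u hu.1 v (mem_erase.2 ⟨hvw, hv⟩) hvT' huv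
    have h1 := hmin w _ hsep
    have h2 : (T ∩ K).card < K.card := by
      apply card_lt_card
      rw [ssubset_iff_of_subset inter_subset_right]
      refine ⟨w, hw, ?_⟩
      intro hw'
      exact (mem_erase.1 (hT (mem_inter.1 hw').1)).1 rfl
    omega
  · rw [not_nonempty_iff_eq_empty] at hTK
    have hTK' : ∀ u ∈ T, u ∉ K := by
      intro u hu huK
      have : u ∈ T ∩ K := mem_inter.2 ⟨hu, huK⟩
      rw [hTK] at this
      exact absurd this (notMem_empty _)
    have hTS : T ⊆ S := hT.trans (erase_subset _ _)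
    have := hS.eq_of_closed hTS hTne (by
      intro u hu v hv hvT huv
      by_cases hvw : v = w
      · subst hvw
        refine h.noadj v hw u (hTS hu) (hTK' u hu) ?_ huv.symm
        rintro rfl; exact hxT hu
      · exact hcl u hu v (mem_erase.2 ⟨hvw, hv⟩) hvT huv)
    rw [this] at hxT
    exact hxT h.mem

end Minimal

end Pool.Agent.ConnDens
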