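import Pool.Agent.ConnDens.Sep

/-!
# The pointwise inequality for connected graphs
-/

set_option autoImplicit false
set_option linter.unusedSectionVars false
set_option linter.unusedVariables false

namespace Pool.Agent.ConnDens

open Finset

open scoped Classical

variable {V : Type} (G : SimpleGraph V)

/-- degree inside `S` -/
noncomputable def dg (S : Finset V) (u : V) : ℕ := (S.filter (fun w => G.Adj u w)).card

/-- unmarked non-cut vertices -/
noncomputable def NC (S : Finset V) (m : V → ℕ) : Finset V :=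
  S.filter (fun w => m w = 0 ∧ Conn G (S.erase w))

/-- number of unmarked non-cut neighbours -/
noncomputable def rr (S : Finset V) (m : V → ℕ) (u : V) : ℕ :=
  ((NC G S m).filter (fun w => G.Adj u w)).card

def beta (n : ℕ) : ℤ := if n = 0 then 0 else if n = 1 then 3 else 4

theorem beta_add (a b : ℕ) : beta (a + b) ≤ beta a + beta b := by
  unfold beta
  split_ifs <;> omega

noncomputable def vl (S : Finset V) (m : V → ℕ) (u : V) : ℤ :=
  (if u ∈ NC G S m then 5 else 0) - 1 + ((3 - (dg G S u + m u) : ℕ) : ℤ) + beta (m u) -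
    (if dg G S u + m u ≤ 3 then (rr G S m u : ℤ) else 0)

variable {G} {S : Finset V} {m : V → ℕ} {u : V}

theorem rr_le_dg : rr G S m u ≤ dg G S u := by
  unfold rr dg
  apply card_le_card
  apply filter_subset_filter
  exact filter_subset _ _

theorem mark_of_nc (h : u ∈ NC G S m) : m u = 0 := by
  unfold NC at h
  rw [mem_filter] at h
  exact h.2.1

theorem vl_nc (h : u ∈ NC G S m) : vl G S m u = 4 + ((3 - dg G S u : ℕ) : ℤ) -
    (if dg G S u ≤ 3 then (rr G S m u : ℤ) else 0) := by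
  unfold vl
  rw [if_pos h, mark_of_nc h]
  simp only [beta, if_true, add_zero]
  ring

theorem vl_mk (h : u ∉ NC G S m) : vl G S m u = -1 + ((3 - (dg G S u + m u) : ℕ) : ℤ) +
    beta (m u) - (if dg G S u + m u ≤ 3 then (rr G S m u : ℤ) else 0) := by
  unfold vl
  rw [if_neg h]
  ring

theorem vl_nc_one (h : u ∈ NC G S m) (hd : 1 ≤ dg G S u) : 1 ≤ vl G S m u := by
  rw [vl_nc h]
  have hr := rr_le_dg (G := G) (S := S) (m := m) (u := u)
  split_ifs <;> omega

theorem vl_nc_two (h : u ∈ NC G S m) (hd : rr G S m u + 1 ≤ dg G S u) : 2 ≤ vl G S m u := by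
  rw [vl_nc h]
  split_ifs <;> omega

theorem vl_nc_four (h : u ∈ NC G S m) : 4 - (rr G S m u : ℤ) ≤ vl G S m u := by
  rw [vl_nc h]
  split_ifs <;> omega

theorem vl_mk_zero (h : u ∉ NC G S m) (hm : m u ≠ 0) (hd : 1 ≤ dg G S u) :
    0 ≤ vl G S m u := by
  rw [vl_mk h]
  have hr := rr_le_dg (G := G) (S := S) (m := m) (u := u)
  unfold beta
  split_ifs <;> omega

theorem vl_mk_one (h : u ∉ NC G S m) (hm : m u ≠ 0) (hd : 2 ≤ dg G S u)
    (hr : rr G S m u + 1 ≤ dg G S u) : 1 ≤ vl G S m u := by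
  rw [vl_mk h]
  unfold beta
  split_ifs <;> omega

theorem vl_mk_two (h : u ∉ NC G S m) (hm : m u ≠ 0) (hd : 2 ≤ dg G S u)
    (hr : rr G S m u = 0) : 2 ≤ vl G S m u := by
  rw [vl_mk h, hr]
  unfold beta
  split_ifs <;> omega

theorem dg_pos (hS : Conn G S) (h2 : 2 ≤ S.card) (hu : u ∈ S) : 1 ≤ dg G S u := by
  obtain ⟨a, ha, b, hb, hab⟩ := hS.2 {u} (singleton_subset_iff.2 hu) (singleton_nonempty u) (by
    intro h; rw [← h, card_singleton] at h2; omega)
  rw [mem_singleton] at ha
  subst ha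
  exact card_pos.2 ⟨b, mem_filter.2 ⟨(mem_sdiff.1 hb).1, hab⟩⟩

section Piece

variable {x : V} {K : Finset V}

/-- unmarked neighbours of `u` in `K` -/
noncomputable def un (G : SimpleGraph V) (K : Finset V) (m : V → ℕ) (u : V) : Finset V :=
  K.filter (fun w => m w = 0 ∧ G.Adj u w)

theorem mem_un {w : V} : w ∈ un G K m u ↔ w ∈ K ∧ m w = 0 ∧ G.Adj u w := by
  unfold un; rw [mem_filter]

variable (hS : Conn G S) (h : Sep G S x K) (hmin : MinSep G S K)

include h in
theorem nbr_K {w : V} (hu : u ∈ K) (hw : w ∈ S) (huw : G.Adj u w) : w ∈ K ∨ w = x := by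
  by_contra hcon
  push Not at hcon
  exact h.noadj u hu w hw hcon.1 hcon.2 huw

include hS h hmin in
theorem nc_K (hu : u ∈ K) : u ∈ NC G S m ↔ m u = 0 := by
  unfold NC
  rw [mem_filter]
  exact ⟨fun h => h.2.1, fun h' => ⟨sep_subS h hu, h', conn_erase_of_min hS h hmin hu⟩⟩

include h in
theorem x_notNC : x ∉ NC G S m := by
  intro hx
  unfold NC at hx
  rw [mem_filter] at hx
  have hc := hx.2.2
  apply h.proper
  apply hc.eq_of_closed h.sub h.ne
  intro u hu w hw hwK
  rw [mem_erase] at hw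
  exact h.noadj u hu w hw.2 hwK hw.1

include hS h hmin in
theorem rr_K (hu : u ∈ K) : rr G S m u = (un G K m u).card := by
  unfold rr
  congr 1
  ext w
  rw [mem_filter, mem_un]
  constructor
  · rintro ⟨h1, h2⟩
    have hwS : w ∈ S := by unfold NC at h1; exact (mem_filter.1 h1).1
    rcases nbr_K h hu hwS h2 with hw | hw
    · exact ⟨hw, mark_of_nc h1, h2⟩
    · subst hw; exact absurd h1 (x_notNC h)
  · rintro ⟨h1, h2, h3⟩
    exact ⟨(nc_K hS h hmin h1).2 h2, h3⟩

include hS h in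
theorem exists_nbr_x : ∃ y ∈ K, G.Adj x y := by
  obtain ⟨u, hu, w, hw, huw⟩ := hS.2 K (sep_subS h) h.ne (by
    rintro rfl
    exact sep_x_notMem h h.mem)
  rw [mem_sdiff] at hw
  rcases nbr_K h hu hw.1 huw with h' | h'
  · exact absurd h' hw.2
  · subst h'; exact ⟨u, hu, huw.symm⟩

include hS h in
theorem exists_nbr_x_out : ∃ y ∈ S, y ∉ K ∧ G.Adj x y := by
  obtain ⟨y, hy, hyK, hyx⟩ := sep_rest h
  obtain ⟨u, hu, w, hw, huw⟩ := hS.2 ((S \ K).erase x)
    ((erase_subset _ _).trans sdiff_subset) ⟨y, mem_erase.2 ⟨hyx, mem_sdiff.2 ⟨hy, hyK⟩⟩⟩ (by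
    intro heq
    have := h.mem
    rw [← heq] at this
    exact (mem_erase.1 this).1 rfl)
  rw [mem_erase, mem_sdiff] at hu
  rw [mem_sdiff] at hw
  have hwx : w = x := by
    by_contra hwx
    have hwK : w ∈ K := by
      by_contra hwK
      exact hw.2 (mem_erase.2 ⟨hwx, mem_sdiff.2 ⟨hw.1, hwK⟩⟩)
    exact h.noadj w hwK u hu.2.1 hu.2.2 hu.1 huw.symm
  subst hwx
  exact ⟨u, hu.2.1, hu.2.2, huw.symm⟩

include hS h hmin in
/-- degrees at least two -/
theorem dg_two (hK : 2 ≤ K.card) (hu : u ∈ K) : 2 ≤ dg G S u := by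
  by_contra hlt
  push Not at hlt
  have hKS := card_le_card (sep_subS h)
  have hpos := dg_pos hS (by omega) (sep_subS h hu)
  have h1 : (S.filter (fun w => G.Adj u w)).card = 1 := by unfold dg at hlt hpos; omega
  obtain ⟨w, hw⟩ := card_eq_one.1 h1
  have hw' : w ∈ S ∧ G.Adj u w := by
    have : w ∈ S.filter (fun w => G.Adj u w) := by rw [hw]; exact mem_singleton_self w
    exact mem_filter.1 this
  have huS := sep_subS h hu
  have hxS := h.mem
  have hcS : 3 ≤ S.card := by
    have : (insert x K) ⊆ S := insert_subset hxS (sep_subS h)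
    have h2 := card_le_card this
    rw [card_insert_of_notMem (sep_x_notMem h)] at h2
    omega
  have hsep : Sep G S w {u} := by
    refine ⟨hw'.1, ?_, singleton_nonempty u, ?_, ?_⟩
    · rw [singleton_subset_iff, mem_erase]
      exact ⟨hw'.2.ne, huS⟩
    · intro heq
      have := congrArg card heq
      rw [card_singleton, card_erase_of_mem hw'.1] at this
      omega
    · intro a ha b hb hba hbw hab
      rw [mem_singleton] at ha
      subst ha
      have : b ∈ S.filter (fun w => G.Adj a w) := mem_filter.2 ⟨hb, hab⟩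
      rw [hw, mem_singleton] at this
      exact hbw this
  have := hmin w _ hsep
  rw [card_singleton] at this
  omega

include hS h hmin in
/-- `x` has two neighbours in `K` -/
theorem two_nbrs (hK : 2 ≤ K.card) : 2 ≤ (K.filter (fun w => G.Adj x w)).card := by
  by_contra hlt
  push Not at hlt
  obtain ⟨y, hy, hxy⟩ := exists_nbr_x hS h
  have hyf : y ∈ K.filter (fun w => G.Adj x w) := mem_filter.2 ⟨hy, hxy⟩
  have hpos : 0 < (K.filter (fun w => G.Adj x w)).card := card_pos.2 ⟨y, hyf⟩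
  have h1 : (K.filter (fun w => G.Adj x w)).card = 1 := by omega
  obtain ⟨w, hw⟩ := card_eq_one.1 h1
  have hwy : w = y := by
    rw [hw, mem_singleton] at hyf; exact hyf.symm
  subst hwy
  have hsep : Sep G S w (K.erase w) := by
    refine ⟨sep_subS h hy, ?_, ?_, ?_, ?_⟩
    · exact erase_subset_erase _ (sep_subS h)
    · rw [← card_pos, card_erase_of_mem hy]; omega
    · intro heq
      have hx : x ∈ K.erase w := by
        rw [heq]; exact mem_erase.2 ⟨hxy.ne, h.mem⟩
      exact sep_x_notMem h (mem_erase.1 hx).2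
    · intro a ha b hb hbK hbw hab
      rw [mem_erase] at ha
      have hbK' : b ∉ K := fun h' => hbK (mem_erase.2 ⟨hbw, h'⟩)
      rcases nbr_K h ha.2 hb hab with h' | h'
      · exact hbK' h'
      · subst h'
        have : a ∈ K.filter (fun w => G.Adj b w) := mem_filter.2 ⟨ha.2, hab.symm⟩
        rw [hw, mem_singleton] at this
        exact ha.1 this
  have h2 := hmin w _ hsep
  rw [card_erase_of_mem hy] at h2
  omega

include hS h hmin in
theorem rr_lt_of_adj_x (hu : u ∈ K) (hux : G.Adj u x) : rr G S m u + 1 ≤ dg G S u := by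
  have hx := x_notNC (m := m) h
  have hsub : (NC G S m).filter (fun w => G.Adj u w) ⊆ S.filter (fun w => G.Adj u w) :=
    filter_subset_filter _ (by unfold NC; exact filter_subset _ _)
  unfold rr dg
  rw [Nat.succ_le_iff]
  apply card_lt_card
  rw [ssubset_iff_of_subset hsub]
  exact ⟨x, mem_filter.2 ⟨h.mem, hux⟩, fun h' => hx (mem_filter.1 h').1⟩

include hS h hmin in
theorem rr_lt_of_adj_marked {w : V} (hw : w ∈ K) (hmw : m w ≠ 0)
    (huw : G.Adj u w) : rr G S m u + 1 ≤ dg G S u := by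
  have hx : w ∉ NC G S m := fun h' => hmw (mark_of_nc h')
  have hsub : (NC G S m).filter (fun w => G.Adj u w) ⊆ S.filter (fun w => G.Adj u w) :=
    filter_subset_filter _ (by unfold NC; exact filter_subset _ _)
  unfold rr dg
  rw [Nat.succ_le_iff]
  apply card_lt_card
  rw [ssubset_iff_of_subset hsub]
  exact ⟨w, mem_filter.2 ⟨sep_subS h hw, huw⟩, fun h' => hx (mem_filter.1 h').1⟩

include hS h hmin in
theorem vl_K_nonneg (hu : u ∈ K) : 0 ≤ vl G S m u := by
  have hKS := sep_subS h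
  have hcS : 2 ≤ S.card := by
    have : (insert x K) ⊆ S := insert_subset h.mem hKS
    have h2 := card_le_card this
    rw [card_insert_of_notMem (sep_x_notMem h)] at h2
    have := card_pos.2 h.ne
    omega
  have hd := dg_pos hS hcS (hKS hu)
  by_cases hm : m u = 0
  · have := vl_nc_one ((nc_K hS h hmin hu).2 hm) hd
    omega
  · exact vl_mk_zero (fun h' => hm (mark_of_nc h')) hm hd

include hS h hmin in
theorem vl_K_one (hu : u ∈ K) (hm : m u = 0) : 1 ≤ vl G S m u := by
  have hKS := sep_subS h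
  have hcS : 2 ≤ S.card := by
    have : (insert x K) ⊆ S := insert_subset h.mem hKS
    have h2 := card_le_card this
    rw [card_insert_of_notMem (sep_x_notMem h)] at h2
    have := card_pos.2 h.ne
    omega
  exact vl_nc_one ((nc_K hS h hmin hu).2 hm) (dg_pos hS hcS (hKS hu))

/-- extracting a sub-sum -/
theorem sum_ge_of_subset {K A : Finset V} (f : V → ℤ) (hA : A ⊆ K) (h0 : ∀ u ∈ K, 0 ≤ f u) :
    ∑ u ∈ A, f u ≤ ∑ u ∈ K, f u :=
  sum_le_sum_of_subset_of_nonneg hA (fun u hu _ => h0 u hu)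

theorem sum_ge_card {A : Finset V} (f : V → ℤ) (h1 : ∀ u ∈ A, 1 ≤ f u) :
    (A.card : ℤ) ≤ ∑ u ∈ A, f u := by
  have : ∑ u ∈ A, (1 : ℤ) ≤ ∑ u ∈ A, f u := sum_le_sum h1
  simpa using this

/-- two neighbours plus a set of other unmarked vertices -/
theorem sum_two_plus {K A : Finset V} (f : V → ℤ) {y₁ y₂ : V} (h12 : y₁ ≠ y₂) (hy₁ : y₁ ∈ K)
    (hy₂ : y₂ ∈ K) (hA : A ⊆ K) (h1A : y₁ ∉ A) (h2A : y₂ ∉ A) (h0 : ∀ u ∈ K, 0 ≤ f u) :
    f y₁ + f y₂ + ∑ u ∈ A, f u ≤ ∑ u ∈ K, f u := by
  have hsub : insert y₁ (insert y₂ A) ⊆ K := insert_subset hy₁ (insert_subset hy₂ hA)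
  have := sum_ge_of_subset f hsub h0
  rw [sum_insert (by rw [mem_insert, not_or]; exact ⟨h12, h1A⟩), sum_insert h2A] at this
  linarith

include hS h hmin in
theorem case_UU (hK : 2 ≤ K.card) {y₁ y₂ : V} (h12 : y₁ ≠ y₂) (hy₁ : y₁ ∈ K) (hy₂ : y₂ ∈ K)
    (hx₁ : G.Adj y₁ x) (hx₂ : G.Adj y₂ x) (hm₁ : m y₁ = 0) (hm₂ : m y₂ = 0) :
    6 ≤ ∑ u ∈ K, vl G S m u := by
  have h0 : ∀ u ∈ K, 0 ≤ vl G S m u := fun u hu => vl_K_nonneg hS h hmin hu
  have hone : ∀ u ∈ K, m u = 0 → 1 ≤ vl G S m u := fun u hu hm => vl_K_one hS h hmin hu hm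
  have v1 : 2 ≤ vl G S m y₁ :=
    vl_nc_two ((nc_K hS h hmin hy₁).2 hm₁) (rr_lt_of_adj_x hS h hmin hy₁ hx₁)
  have v2 : 2 ≤ vl G S m y₂ :=
    vl_nc_two ((nc_K hS h hmin hy₂).2 hm₂) (rr_lt_of_adj_x hS h hmin hy₂ hx₂)
  -- main argument with a distinguished vertex of value 2
  have key : ∀ y₁ y₂ : V, y₁ ≠ y₂ → y₁ ∈ K → y₂ ∈ K → m y₁ = 0 → m y₂ = 0 →
      2 ≤ vl G S m y₁ → 2 ≤ vl G S m y₂ → vl G S m y₁ < 3 → 6 ≤ ∑ u ∈ K, vl G S m u := by
    intro y₁ y₂ h12 hy₁ hy₂ hm₁ hm₂ v1 v2 hlt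
    have hr1 := vl_nc_four ((nc_K hS h hmin hy₁).2 hm₁)
    rw [rr_K hS h hmin hy₁] at hr1
    have hc1 : 2 ≤ (un G K m y₁).card := by omega
    have hself : ∀ y, y ∉ un G K m y := by
      intro y hy; exact (mem_un.1 hy).2.2.ne rfl
    have hunK : ∀ y, un G K m y ⊆ K := by
      intro y w hw; exact (mem_un.1 hw).1
    have hunm : ∀ y w, w ∈ un G K m y → m w = 0 := by
      intro y w hw; exact (mem_un.1 hw).2.1
    by_cases hadj : y₂ ∈ un G K m y₁
    · -- adjacent
      have hadj' : y₁ ∈ un G K m y₂ := mem_un.2 ⟨hy₁, hm₁, (mem_un.1 hadj).2.2.symm⟩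
      set A := (un G K m y₁).erase y₂ with hA
      have hAc : 1 ≤ A.card := by rw [hA, card_erase_of_mem hadj]; omega
      have hAK : A ⊆ K := (erase_subset _ _).trans (hunK _)
      have hA1 : y₁ ∉ A := fun h' => hself y₁ (mem_erase.1 h').2
      have hA2 : y₂ ∉ A := fun h' => (mem_erase.1 h').1 rfl
      have hAm : ∀ w ∈ A, m w = 0 := fun w hw => hunm _ _ (mem_erase.1 hw).2
      have hsum := sum_two_plus (vl G S m) h12 hy₁ hy₂ hAK hA1 hA2 h0
      have hAs := sum_ge_card (vl G S m) (fun u hu => hone u (hAK hu) (hAm u hu))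
      by_cases hv2 : 3 ≤ vl G S m y₂
      · have : (1 : ℤ) ≤ A.card := by exact_mod_cast hAc
        linarith
      · push Not at hv2
        by_cases hA2c : 2 ≤ A.card
        · have : (2 : ℤ) ≤ A.card := by exact_mod_cast hA2c
          linarith
        · have hA1c : A.card = 1 := by omega
          obtain ⟨p, hp⟩ := card_eq_one.1 hA1c
          have hpA : p ∈ A := by rw [hp]; exact mem_singleton_self p
          have hpK := hAK hpA
          have hpm := hAm p hpA
          have hp1 : y₁ ≠ p := fun h' => hA1 (by rw [h']; exact hpA)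
          have hp2 : y₂ ≠ p := fun h' => hA2 (by rw [h']; exact hpA)
          -- the other vertex
          have hr2 := vl_nc_four ((nc_K hS h hmin hy₂).2 hm₂)
          rw [rr_K hS h hmin hy₂] at hr2
          have hc2 : 2 ≤ (un G K m y₂).card := by omega
          by_cases hex : ∃ q ∈ K, m q = 0 ∧ q ≠ p ∧ q ≠ y₁ ∧ q ≠ y₂
          · obtain ⟨q, hqK, hqm, hqp, hq1, hq2⟩ := hex
            have hB : ({p, q} : Finset V) ⊆ K := by
              intro w hw
              rw [mem_insert, mem_singleton] at hw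
              rcases hw with rfl | rfl
              · exact hpK
              · exact hqK
            have hs := sum_two_plus (vl G S m) h12 hy₁ hy₂ hB
              (by rw [mem_insert, mem_singleton, not_or]; exact ⟨hp1, hq1.symm⟩)
              (by rw [mem_insert, mem_singleton, not_or]; exact ⟨hp2, hq2.symm⟩) h0
            rw [sum_insert (by rw [mem_singleton]; exact hqp.symm), sum_singleton] at hs
            have e1 := hone p hpK hpm
            have e2 := hone q hqK hqm
            linarith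
          · push Not at hex
            -- then `p` has at most two unmarked neighbours
            have hup : un G K m p ⊆ {y₁, y₂} := by
              intro w hw
              obtain ⟨hwK, hwm, hpw⟩ := mem_un.1 hw
              rw [mem_insert, mem_singleton]
              by_contra hcon
              push Not at hcon
              exact hcon.2 (hex w hwK hwm hpw.ne' hcon.1)
            have hcp : (un G K m p).card ≤ 2 := (card_le_card hup).trans card_le_two
            have hrp := vl_nc_four ((nc_K hS h hmin hpK).2 hpm)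
            rw [rr_K hS h hmin hpK] at hrp
            rw [hp, sum_singleton] at hsum
            have : ((un G K m p).card : ℤ) ≤ 2 := by exact_mod_cast hcp
            linarith
    · have hsum := sum_two_plus (vl G S m) h12 hy₁ hy₂ (hunK y₁) (hself y₁) hadj h0
      have hAs := sum_ge_card (vl G S m) (fun u hu => hone u (hunK y₁ hu) (hunm y₁ u hu))
      have : (2 : ℤ) ≤ (un G K m y₁).card := by exact_mod_cast hc1
      linarith
  by_cases hv1 : 3 ≤ vl G S m y₁
  · by_cases hv2 : 3 ≤ vl G S m y₂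
    · have hsum := sum_two_plus (vl G S m) h12 hy₁ hy₂ (empty_subset K) (notMem_empty _)
        (notMem_empty _) h0
      rw [sum_empty] at hsum
      linarith
    · push Not at hv2
      exact key y₂ y₁ h12.symm hy₂ hy₁ hm₂ hm₁ v2 v1 hv2
  · push Not at hv1
    exact key y₁ y₂ h12 hy₁ hy₂ hm₁ hm₂ v1 v2 hv1

include hS h hmin in
theorem case_UM (hK : 2 ≤ K.card) {y₁ y₂ : V} (h12 : y₁ ≠ y₂) (hy₁ : y₁ ∈ K) (hy₂ : y₂ ∈ K)
    (hx₁ : G.Adj y₁ x) (hx₂ : G.Adj y₂ x) (hm₁ : m y₁ = 0) (hm₂ : m y₂ ≠ 0) :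
    5 ≤ ∑ u ∈ K, vl G S m u := by
  have h0 : ∀ u ∈ K, 0 ≤ vl G S m u := fun u hu => vl_K_nonneg hS h hmin hu
  have hone : ∀ u ∈ K, m u = 0 → 1 ≤ vl G S m u := fun u hu hm => vl_K_one hS h hmin hu hm
  have v2 : 1 ≤ vl G S m y₂ := vl_mk_one (fun h' => hm₂ (mark_of_nc h')) hm₂
    (dg_two hS h hmin hK hy₂) (rr_lt_of_adj_x hS h hmin hy₂ hx₂)
  have hr1 := vl_nc_four ((nc_K hS h hmin hy₁).2 hm₁)
  rw [rr_K hS h hmin hy₁] at hr1
  have hunK : un G K m y₁ ⊆ K := fun w hw => (mem_un.1 hw).1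
  have hsum := sum_two_plus (vl G S m) h12 hy₁ hy₂ hunK
    (fun hy => (mem_un.1 hy).2.2.ne rfl) (fun hy => hm₂ (mem_un.1 hy).2.1) h0
  have hAs := sum_ge_card (vl G S m)
    (fun u (hu : u ∈ un G K m y₁) => hone u (hunK hu) (mem_un.1 hu).2.1)
  linarith

include hS h hmin in
theorem case_MM (hK : 2 ≤ K.card) {y₁ y₂ : V} (h12 : y₁ ≠ y₂) (hy₁ : y₁ ∈ K) (hy₂ : y₂ ∈ K)
    (hx₁ : G.Adj y₁ x) (hx₂ : G.Adj y₂ x) (hm₁ : m y₁ ≠ 0) (hm₂ : m y₂ ≠ 0) :
    4 ≤ ∑ u ∈ K, vl G S m u := by
  have h0 : ∀ u ∈ K, 0 ≤ vl G S m u := fun u hu => vl_K_nonneg hS h hmin hu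
  have v1 : 1 ≤ vl G S m y₁ := vl_mk_one (fun h' => hm₁ (mark_of_nc h')) hm₁
    (dg_two hS h hmin hK hy₁) (rr_lt_of_adj_x hS h hmin hy₁ hx₁)
  have v2 : 1 ≤ vl G S m y₂ := vl_mk_one (fun h' => hm₂ (mark_of_nc h')) hm₂
    (dg_two hS h hmin hK hy₂) (rr_lt_of_adj_x hS h hmin hy₂ hx₂)
  have key : ∀ y₁ y₂ : V, y₁ ≠ y₂ → y₁ ∈ K → y₂ ∈ K → m y₁ ≠ 0 → m y₂ ≠ 0 →
      1 ≤ vl G S m y₁ → 1 ≤ vl G S m y₂ → vl G S m y₁ < 2 → 4 ≤ ∑ u ∈ K, vl G S m u := by
    intro y₁ y₂ h12 hy₁ hy₂ hm₁ hm₂ v1 v2 hlt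
    have hr : rr G S m y₁ ≠ 0 := by
      intro hr
      have := vl_mk_two (fun h' => hm₁ (mark_of_nc h')) hm₁ (dg_two hS h hmin hK hy₁) hr
      omega
    rw [rr_K hS h hmin hy₁] at hr
    obtain ⟨w, hw⟩ := card_pos.1 (Nat.pos_of_ne_zero hr)
    obtain ⟨hwK, hwm, hyw⟩ := mem_un.1 hw
    have vw : 2 ≤ vl G S m w := vl_nc_two ((nc_K hS h hmin hwK).2 hwm)
      (rr_lt_of_adj_marked hS h hmin hy₁ hm₁ hyw.symm)
    have hsum := sum_two_plus (vl G S m) h12 hy₁ hy₂ (A := {w}) (singleton_subset_iff.2 hwK)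
      (by rw [mem_singleton]; exact hyw.ne) (by
        rw [mem_singleton]; rintro rfl; exact hm₂ hwm) h0
    rw [sum_singleton] at hsum
    linarith
  by_cases hv1 : 2 ≤ vl G S m y₁
  · by_cases hv2 : 2 ≤ vl G S m y₂
    · have hsum := sum_two_plus (vl G S m) h12 hy₁ hy₂ (empty_subset K) (notMem_empty _)
        (notMem_empty _) h0
      rw [sum_empty] at hsum
      linarith
    · push Not at hv2
      exact key y₂ y₁ h12.symm hy₂ hy₁ hm₂ hm₁ v2 v1 hv2
  · push Not at hv1
    exact key y₁ y₂ h12 hy₁ hy₂ hm₁ hm₂ v1 v2 hv1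

theorem dg_x (h : Sep G S x K) :
    dg G S x = dg G (S \ K) x + (K.filter (fun w => G.Adj x w)).card := by
  unfold dg
  rw [← card_union_of_disjoint]
  · congr 1
    ext w
    simp only [mem_filter, mem_union, mem_sdiff]
    have := sep_subS h
    constructor
    · rintro ⟨h1, h2⟩
      by_cases hw : w ∈ K
      · exact Or.inr ⟨hw, h2⟩
      · exact Or.inl ⟨⟨h1, hw⟩, h2⟩
    · rintro (⟨⟨h1, -⟩, h2⟩ | ⟨h1, h2⟩)
      · exact ⟨h1, h2⟩
      · exact ⟨this h1, h2⟩
  · rw [disjoint_left]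
    intro w hw hw'
    exact (mem_sdiff.1 (mem_filter.1 hw).1).2 (mem_filter.1 hw').1

include hS h hmin in
/-- The inequality for a minimal separated piece. -/
theorem piece : beta (K.filter (fun w => G.Adj x w)).card ≤ ∑ u ∈ K, vl G S m u -
    (if dg G S x + m x ≤ 3 then ((un G K m x).card : ℤ) else 0) := by
  have hdx := dg_x h
  obtain ⟨yo, hyoS, hyoK, hxyo⟩ := exists_nbr_x_out hS h
  have hout : 1 ≤ dg G (S \ K) x :=
    card_pos.2 ⟨yo, mem_filter.2 ⟨mem_sdiff.2 ⟨hyoS, hyoK⟩, hxyo⟩⟩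
  rcases Nat.lt_or_ge K.card 2 with hK | hK
  · have hK1 : K.card = 1 := by have := card_pos.2 h.ne; omega
    obtain ⟨u, hu⟩ := card_eq_one.1 hK1
    have huK : u ∈ K := by rw [hu]; exact mem_singleton_self u
    obtain ⟨y, hyK, hxy⟩ := exists_nbr_x hS h
    have hyu : y = u := by rw [hu, mem_singleton] at hyK; exact hyK
    subst hyu
    have hf : K.filter (fun w => G.Adj x w) = {y} := by
      ext w
      rw [mem_filter, mem_singleton]
      constructor
      · rintro ⟨hw, -⟩; rw [hu, mem_singleton] at hw; exact hw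
      · rintro rfl; exact ⟨huK, hxy⟩
    have hdg : dg G S y = 1 := by
      unfold dg
      rw [card_eq_one]
      refine ⟨x, ?_⟩
      ext w
      rw [mem_filter, mem_singleton]
      constructor
      · rintro ⟨h1, h2⟩
        rcases nbr_K h huK h1 h2 with h' | h'
        · rw [hu, mem_singleton] at h'; exact absurd h'.symm h2.ne
        · exact h'
      · rintro rfl; exact ⟨h.mem, hxy.symm⟩
    have hr : rr G S m y = 0 := by
      rw [rr_K hS h hmin huK, card_eq_zero, eq_empty_iff_forall_notMem]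
      intro w hw
      obtain ⟨hw1, -, hw3⟩ := mem_un.1 hw
      rw [hu, mem_singleton] at hw1
      exact hw3.ne hw1.symm
    rw [hf, hu, sum_singleton, card_singleton]
    by_cases hm : m y = 0
    · rw [vl_nc ((nc_K hS h hmin huK).2 hm), hdg, hr]
      have hun : (un G {y} m x).card ≤ 1 := by
        have : un G {y} m x ⊆ {y} := fun w hw => (mem_un.1 hw).1
        simpa using card_le_card this
      have : ((un G {y} m x).card : ℤ) ≤ 1 := by exact_mod_cast hun
      simp only [beta]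
      split_ifs <;> simp <;> omega
    · rw [vl_mk (fun h' => hm (mark_of_nc h')), hdg, hr]
      have hun : (un G {y} m x).card = 0 := by
        rw [card_eq_zero, eq_empty_iff_forall_notMem]
        intro w hw
        obtain ⟨hw1, hw2, -⟩ := mem_un.1 hw
        rw [mem_singleton] at hw1
        rw [hw1] at hw2
        exact hm hw2
      rw [hun]
      simp only [beta]
      split_ifs <;> simp <;> omega
  · have h2n := two_nbrs hS h hmin hK
    obtain ⟨y₁, hy₁, y₂, hy₂, h12⟩ := one_lt_card.1 (show 1 < _ from h2n)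
    rw [mem_filter] at hy₁ hy₂
    have hβ : beta (K.filter (fun w => G.Adj x w)).card = 4 := by
      unfold beta
      rw [if_neg (by omega), if_neg (by omega)]
    rw [hβ]
    -- lower bound with the number of unmarked vertices among the two
    have main : 4 + ((if m y₁ = 0 then 1 else 0) + (if m y₂ = 0 then 1 else 0) : ℤ) ≤
        ∑ u ∈ K, vl G S m u := by
      by_cases hm₁ : m y₁ = 0 <;> by_cases hm₂ : m y₂ = 0
      · have := case_UU (m := m) hS h hmin hK h12 hy₁.1 hy₂.1 hy₁.2.symm hy₂.2.symm hm₁ hm₂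
        simp only [hm₁, hm₂, if_true]; linarith
      · have := case_UM (m := m) hS h hmin hK h12 hy₁.1 hy₂.1 hy₁.2.symm hy₂.2.symm hm₁ hm₂
        simp only [hm₁, hm₂, if_true, if_false]; linarith
      · have := case_UM (m := m) hS h hmin hK h12.symm hy₂.1 hy₁.1 hy₂.2.symm hy₁.2.symm hm₂ hm₁
        simp only [hm₁, hm₂, if_true, if_false]; linarith
      · have := case_MM (m := m) hS h hmin hK h12 hy₁.1 hy₂.1 hy₁.2.symm hy₂.2.symm hm₁ hm₂
        simp only [hm₁, hm₂, if_false]; linarith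
    split_ifs with hD
    · -- then `x` has exactly two neighbours in `K`
      have hc2 : (K.filter (fun w => G.Adj x w)).card = 2 := by omega
      have hset : K.filter (fun w => G.Adj x w) = {y₁, y₂} := by
        symm
        apply eq_of_subset_of_card_le
        · intro w hw
          rw [mem_insert, mem_singleton] at hw
          rcases hw with rfl | rfl
          · exact mem_filter.2 hy₁
          · exact mem_filter.2 hy₂
        · rw [hc2, card_pair h12]
      have hun : un G K m x = ({y₁, y₂} : Finset V).filter (fun w => m w = 0) := by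
        rw [← hset]
        ext w
        rw [mem_un, mem_filter, mem_filter]
        tauto
      rw [hun, filter_insert, filter_singleton]
      by_cases hm₁ : m y₁ = 0 <;> by_cases hm₂ : m y₂ = 0
      · simp only [hm₁, hm₂, if_true] at main ⊢
        rw [card_insert_of_notMem (by rw [mem_singleton]; exact h12), card_singleton]
        push_cast; linarith
      · simp only [hm₁, hm₂, if_true, if_false] at main ⊢
        simp; linarith
      · simp only [hm₁, hm₂, if_true, if_false] at main ⊢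
        simp; linarith
      · simp only [hm₁, hm₂, if_false] at main ⊢
        simp; linarith
    · have : (0 : ℤ) ≤ (if m y₁ = 0 then 1 else 0) + (if m y₂ = 0 then 1 else 0) := by
        split_ifs <;> norm_num
      linarith

end Piece

end Pool.Agent.ConnDens
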